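import Pool.Agent.TH136.DM.Fourier
import Mathlib.LinearAlgebra.Quotient.Basic
import Mathlib.LinearAlgebra.Span.Basic
import Mathlib.SetTheory.Cardinal.Finite

/-! Sets invariant under the units of a finite ring, with small doubling: they are dense in a
submodule. -/

set_option autoImplicit false
open Finset
open scoped Pointwise Classical

namespace Pool.Agent.TH136.DM

variable {R M : Type*} [Ring R] [AddCommGroup M] [Module R M]

/-- The elements of `C` in the coset `x + V`. -/
noncomputable def sec (C : Finset M) (V : Submodule R M) (x : M) : Finset M :=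
  C.filter fun c => c - x ∈ V

theorem mem_sec {C : Finset M} {V : Submodule R M} {x c : M} :
    c ∈ sec C V x ↔ c ∈ C ∧ c - x ∈ V := by
  simp [sec]

theorem sec_congr {C : Finset M} {V : Submodule R M} {x y : M} (h : x - y ∈ V) :
    sec C V x = sec C V y := by
  ext c
  rw [mem_sec, mem_sec]
  refine and_congr_right fun _ => ?_
  constructor
  · intro hc
    have := V.add_mem hc h
    simpa using this
  · intro hc
    have := V.sub_mem hc h
    have e : c - y - (x - y) = c - x := by abel
    rwa [e] at this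

theorem sec_unit {C : Finset M} (hC : ∀ u : Rˣ, ∀ c ∈ C, (u : R) • c ∈ C) (V : Submodule R M)
    (u : Rˣ) (x : M) : (sec C V x).card ≤ (sec C V ((u : R) • x)).card := by
  refine Finset.card_le_card_of_injOn (fun c => (u : R) • c) ?_ ?_
  · intro c hc
    rw [Finset.mem_coe, mem_sec] at hc ⊢
    refine ⟨hC u c hc.1, ?_⟩
    rw [← smul_sub]
    exact V.smul_mem _ hc.2
  · intro a _ b _ hab
    have hab' : (u : R) • a = (u : R) • b := hab
    have : (u⁻¹ : Rˣ) • (u • a) = (u⁻¹ : Rˣ) • (u • b) := by
      rw [Units.smul_def u a, Units.smul_def u b, hab']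
    simpa using this

/-- The Fourier estimate for sections. -/
theorem sec_bound [Finite M] (T : Finset Rˣ) (hT0 : T.Nonempty)
    (hT : ∀ u ∈ T, ∀ v ∈ T, u ≠ v → IsUnit ((u : R) - v)) (C : Finset M)
    (hC : ∀ u : Rˣ, ∀ c ∈ C, (u : R) • c ∈ C) (V : Submodule R M) (x : M) :
    (((sec C V x).card : ℝ) * (sec C V 0).card) ^ 2 ≤ (sec C V x + sec C V 0).card *
      ((((sec C V x).card : ℝ) * (sec C V 0).card) ^ 2 / Nat.card V +
        (sec C V x).card * (sec C V 0).card * Nat.card V / T.card) := by
  have : Fintype V := Fintype.ofFinite _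
  set S' : Finset V := Finset.univ.filter fun v => x + (v : M) ∈ C with hS'
  set B' : Finset V := Finset.univ.filter fun v => (v : M) ∈ C with hB'
  have key : ∀ y : M, (Finset.univ.filter fun v : V => y + (v : M) ∈ C).card = (sec C V y).card := by
    intro y
    refine Finset.card_bij (fun v _ => y + (v : M)) ?_ ?_ ?_
    · intro v hv
      rw [mem_sec]
      refine ⟨(Finset.mem_filter.1 hv).2, ?_⟩
      have : y + (v : M) - y = v := by abel
      rw [this]
      exact v.2
    · intro a _ b _ hab
      have : (a : M) = b := add_left_cancel hab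
      exact Subtype.ext this
    · intro c hc
      rw [mem_sec] at hc
      refine ⟨⟨c - y, hc.2⟩, ?_, ?_⟩
      · simp [hc.1]
      · simp
  have hSc : S'.card = (sec C V x).card := key x
  have hBc : B'.card = (sec C V 0).card := by
    rw [← key 0]
    simp [hB']
  have hB'inv : ∀ u ∈ T, ∀ b ∈ B', (u : R) • b ∈ B' := by
    intro u _ b hb
    have := (Finset.mem_filter.1 hb).2
    refine Finset.mem_filter.2 ⟨Finset.mem_univ _, ?_⟩
    have h2 := hC u _ this
    simpa using h2
  have h := sumset_bound (V := V) T hT0 hT S' B' hB'inv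
  rw [hSc, hBc, ← Nat.card_eq_fintype_card] at h
  refine h.trans ?_
  refine mul_le_mul_of_nonneg_right ?_ (by positivity)
  have : (S' + B').card ≤ (sec C V x + sec C V 0).card := by
    refine Finset.card_le_card_of_injOn (fun v : V => x + (v : M)) ?_ ?_
    · intro v hv
      obtain ⟨s, hs, b, hb, rfl⟩ := Finset.mem_add.1 (Finset.mem_coe.1 hv)
      refine Finset.mem_coe.2 (Finset.mem_add.2 ⟨x + (s : M), ?_, (b : M), ?_, ?_⟩)
      · rw [mem_sec]
        refine ⟨(Finset.mem_filter.1 hs).2, ?_⟩
        have : x + (s : M) - x = s := by abel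
        rw [this]
        exact s.2
      · rw [mem_sec]
        refine ⟨(Finset.mem_filter.1 hb).2, ?_⟩
        simp
      · simp [add_assoc]
    · intro a _ b _ hab
      have : (a : M) = b := add_left_cancel hab
      exact Subtype.ext this
  exact_mod_cast this

/-- Double counting in `V + Rx`. -/
theorem extend_bound [Finite M] [Finite R] (hR : Nat.card R ≤ 2 * Nat.card Rˣ) (C : Finset M)
    (hC : ∀ u : Rˣ, ∀ c ∈ C, (u : R) • c ∈ C) (V : Submodule R M) (x : M) :
    Nat.card ↥(V ⊔ Submodule.span R {x}) * (sec C V x).card ≤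
      2 * Nat.card V * (sec C (V ⊔ Submodule.span R {x}) 0).card := by
  haveI : Fintype R := Fintype.ofFinite _
  haveI : Fintype Rˣ := Fintype.ofFinite _
  haveI : Fintype M := Fintype.ofFinite _
  set W : Submodule R M := V ⊔ Submodule.span R {x} with hW
  set κ : ℕ := (Finset.univ.filter fun r : R => r • x ∈ V).card with hκ
  have hκ0 : 0 < κ := Finset.card_pos.2 ⟨0, by simp⟩
  have hWmem : ∀ m : M, m ∈ W ↔ ∃ r : R, m - r • x ∈ V := by
    intro m
    rw [hW, Submodule.mem_sup]
    constructor
    · rintro ⟨v, hv, z, hz, rfl⟩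
      obtain ⟨r, rfl⟩ := Submodule.mem_span_singleton.1 hz
      exact ⟨r, by simpa using hv⟩
    · rintro ⟨r, hr⟩
      exact ⟨m - r • x, hr, r • x, Submodule.mem_span_singleton.2 ⟨r, rfl⟩, by simp⟩
  have hfib : ∀ m ∈ W, (Finset.univ.filter fun r : R => m - r • x ∈ V).card = κ := by
    intro m hm
    obtain ⟨r₀, hr₀⟩ := (hWmem m).1 hm
    refine Finset.card_bij (fun r _ => r - r₀) ?_ ?_ ?_
    · intro r hr
      have hr' := (Finset.mem_filter.1 hr).2
      refine Finset.mem_filter.2 ⟨Finset.mem_univ _, ?_⟩
      have := V.sub_mem hr₀ hr'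
      have e : m - r₀ • x - (m - r • x) = (r - r₀) • x := by rw [sub_smul]; abel
      rwa [e] at this
    · intro a _ b _ hab
      exact sub_left_injective hab
    · intro s hs
      have hs' := (Finset.mem_filter.1 hs).2
      refine ⟨s + r₀, Finset.mem_filter.2 ⟨Finset.mem_univ _, ?_⟩, by simp⟩
      have := V.sub_mem hr₀ hs'
      have e : m - r₀ • x - s • x = m - (s + r₀) • x := by rw [add_smul]; abel
      rwa [e] at this
  -- double counting for a general finset `D`
  have hdc : ∀ D : Finset M, ∑ r : R, (sec D V (r • x)).card = κ * (sec D W 0).card := by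
    intro D
    have h1 : ∀ r : R, (sec D V (r • x)).card = ∑ c ∈ D, if c - r • x ∈ V then 1 else 0 := by
      intro r
      rw [sec, Finset.card_filter]
    simp_rw [h1]
    rw [Finset.sum_comm]
    have h2 : ∀ c ∈ D, (∑ r : R, if c - r • x ∈ V then 1 else 0) = if c ∈ W then κ else 0 := by
      intro c _
      rw [← Finset.card_filter]
      split_ifs with hc
      · exact hfib c hc
      · rw [Finset.card_eq_zero, Finset.filter_eq_empty_iff]
        intro r _ hr
        exact hc ((hWmem c).2 ⟨r, hr⟩)
    rw [Finset.sum_congr rfl h2, ← Finset.sum_filter, Finset.sum_const, smul_eq_mul, mul_comm]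
    congr 2
    ext c
    simp [sec]
  have hA := hdc C
  have hB := hdc Finset.univ
  have hBV : ∀ y : M, (sec (Finset.univ : Finset M) V y).card = Nat.card V := by
    intro y
    rw [Nat.card_eq_fintype_card, ← Finset.card_univ]
    symm
    refine Finset.card_bij (fun v _ => y + (v : M)) ?_ ?_ ?_
    · intro v _
      rw [mem_sec]
      simp
    · intro a _ b _ hab
      have : (a : M) = b := add_left_cancel hab
      exact Subtype.ext this
    · intro c hc
      rw [mem_sec] at hc
      exact ⟨⟨c - y, hc.2⟩, Finset.mem_univ _, by simp⟩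
  have hBW : (sec (Finset.univ : Finset M) W 0).card = Nat.card W := by
    rw [Nat.card_eq_fintype_card, ← Finset.card_univ]
    symm
    refine Finset.card_bij (fun v _ => (v : M)) ?_ ?_ ?_
    · intro v _
      rw [mem_sec]
      simp
    · intro a _ b _ hab
      exact Subtype.ext hab
    · intro c hc
      rw [mem_sec] at hc
      exact ⟨⟨c, by simpa using hc.2⟩, Finset.mem_univ _, rfl⟩
  rw [hBW] at hB
  simp_rw [hBV] at hB
  rw [Finset.sum_const, Finset.card_univ, smul_eq_mul, ← Nat.card_eq_fintype_card] at hB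
  -- units
  have hU : Nat.card Rˣ * (sec C V x).card ≤ κ * (sec C W 0).card := by
    rw [← hA]
    have h3 : Nat.card Rˣ * (sec C V x).card = ∑ _u : Rˣ, (sec C V x).card := by
      rw [Finset.sum_const, Finset.card_univ, smul_eq_mul, Nat.card_eq_fintype_card]
    rw [h3]
    calc ∑ _u : Rˣ, (sec C V x).card ≤ ∑ u : Rˣ, (sec C V ((u : R) • x)).card :=
          Finset.sum_le_sum fun u _ => sec_unit hC V u x
      _ = ∑ r ∈ Finset.univ.image (fun u : Rˣ => (u : R)), (sec C V (r • x)).card := by
          rw [Finset.sum_image (fun a _ b _ h => Units.ext h)]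
      _ ≤ ∑ r : R, (sec C V (r • x)).card :=
          Finset.sum_le_sum_of_subset (Finset.subset_univ _)
  have h4 : κ * (Nat.card W * (sec C V x).card) ≤
      κ * (2 * Nat.card V * (sec C W 0).card) := by
    calc κ * (Nat.card W * (sec C V x).card) = (κ * Nat.card W) * (sec C V x).card := by ring
      _ = Nat.card R * Nat.card V * (sec C V x).card := by rw [hB]
      _ ≤ 2 * Nat.card Rˣ * Nat.card V * (sec C V x).card := by gcongr
      _ = 2 * Nat.card V * (Nat.card Rˣ * (sec C V x).card) := by ring
      _ ≤ 2 * Nat.card V * (κ * (sec C W 0).card) := by gcongr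
      _ = κ * (2 * Nat.card V * (sec C W 0).card) := by ring
  exact Nat.le_of_mul_le_mul_left h4 hκ0

/-- A unit-invariant set of small doubling is dense in a submodule, and is covered by few cosets
of it. -/
theorem cone [Finite M] [Finite R] (hR : Nat.card R ≤ 2 * Nat.card Rˣ) (T : Finset Rˣ)
    (hT : ∀ u ∈ T, ∀ v ∈ T, u ≠ v → IsUnit ((u : R) - v)) (C : Finset M) (h0 : C.Nonempty)
    (hC : ∀ u : Rˣ, ∀ c ∈ C, (u : R) • c ∈ C) (K : ℝ)
    (hK : ((C + C).card : ℝ) ≤ K * C.card) (hTK : 26 * K ^ 2 ≤ T.card) :
    ∃ V : Submodule R M, (C.card : ℝ) ≤ 4 * (sec C V 0).card ∧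
      (Nat.card V : ℝ) ≤ 16 * K * (sec C V 0).card ∧
      (((C.image fun c => (Submodule.Quotient.mk c : M ⧸ V)).card : ℝ)) ≤ 4 * K := by
  have hCc : (0 : ℝ) < C.card := by exact_mod_cast h0.card_pos
  have hK1 : 1 ≤ K := by
    have h2 : (C.card : ℝ) ≤ (C + C).card := by
      exact_mod_cast Finset.card_le_card_add_right h0
    have h3 : 1 * (C.card : ℝ) ≤ K * C.card := by linarith
    exact le_of_mul_le_mul_right h3 hCc
  have hK0 : 0 < K := by linarith
  have hTc : (0 : ℝ) < T.card := by
    have : (0 : ℝ) < 26 * K ^ 2 := by positivity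
    linarith
  obtain ⟨x₀, hx₀⟩ := h0
  have hT0 : T.Nonempty := by
    rw [← Finset.card_pos]
    exact_mod_cast hTc
  haveI : Finite (Submodule R M) :=
    Finite.of_injective (fun V : Submodule R M => (V : Set M)) SetLike.coe_injective
  haveI : Fintype (Submodule R M) := Fintype.ofFinite _
  obtain ⟨V, hVm, hmax⟩ := Finset.exists_max_image
    (Finset.univ.filter fun V : Submodule R M => (Nat.card V : ℝ) ≤ 16 * K * (sec C V 0).card)
    (fun V => Nat.card V) ⟨⊥ ⊔ Submodule.span R {x₀}, by
      refine Finset.mem_filter.2 ⟨Finset.mem_univ _, ?_⟩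
      have h1 : (1 : ℝ) ≤ (sec C (⊥ : Submodule R M) x₀).card := by
        have : 0 < (sec C (⊥ : Submodule R M) x₀).card :=
          Finset.card_pos.2 ⟨x₀, by rw [mem_sec]; exact ⟨hx₀, by simp⟩⟩
        exact_mod_cast this
      have h2 : Nat.card (⊥ : Submodule R M) = 1 := by simp
      have h3 := extend_bound hR C hC ⊥ x₀
      rw [h2] at h3
      have h3' : (Nat.card ↥((⊥ : Submodule R M) ⊔ Submodule.span R {x₀}) : ℝ) *
          (sec C (⊥ : Submodule R M) x₀).card ≤
          2 * (1 : ℕ) * (sec C ((⊥ : Submodule R M) ⊔ Submodule.span R {x₀}) 0).card := by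
        exact_mod_cast h3
      have h4 : (Nat.card ↥((⊥ : Submodule R M) ⊔ Submodule.span R {x₀}) : ℝ) * 1 ≤
          Nat.card ↥((⊥ : Submodule R M) ⊔ Submodule.span R {x₀}) *
          (sec C (⊥ : Submodule R M) x₀).card :=
        mul_le_mul_of_nonneg_left h1 (Nat.cast_nonneg _)
      have h5 : (0 : ℝ) ≤ (sec C ((⊥ : Submodule R M) ⊔ Submodule.span R {x₀}) 0).card :=
        Nat.cast_nonneg _
      push_cast at h3'
      nlinarith⟩
  have hV : (Nat.card V : ℝ) ≤ 16 * K * (sec C V 0).card := (Finset.mem_filter.1 hVm).2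
  have hVpos : (0 : ℝ) < Nat.card V := by
    have : 0 < Nat.card V := Nat.card_pos
    exact_mod_cast this
  have hBpos : (0 : ℝ) < (sec C V 0).card := by
    by_contra hcon
    push Not at hcon
    have : 16 * K * ((sec C V 0).card : ℝ) ≤ 0 := mul_nonpos_of_nonneg_of_nonpos (by positivity) hcon
    linarith
  obtain ⟨b₀, hb₀⟩ : (sec C V 0).Nonempty := by
    rw [← Finset.card_pos]
    exact_mod_cast hBpos
  -- small sections
  have hsmall : ∀ x : M, x ∉ V → 8 * K * ((sec C V x).card : ℝ) ≤ Nat.card V := by
    intro x hx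
    by_contra hcon
    push Not at hcon
    have hlt : Nat.card V < Nat.card ↥(V ⊔ Submodule.span R {x}) := by
      have hss : (V : Set M) ⊂ ((V ⊔ Submodule.span R {x} : Submodule R M) : Set M) := by
        refine ⟨fun v hv => Submodule.mem_sup_left hv, fun hcontra => hx ?_⟩
        exact hcontra (Submodule.mem_sup_right (Submodule.mem_span_singleton_self x))
      have := Set.ncard_lt_ncard hss (Set.toFinite _)
      rw [← Nat.card_coe_set_eq, ← Nat.card_coe_set_eq] at this
      exact this
    have hnot : ¬ ((Nat.card ↥(V ⊔ Submodule.span R {x}) : ℝ) ≤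
        16 * K * (sec C (V ⊔ Submodule.span R {x}) 0).card) := by
      intro hh
      have := hmax (V ⊔ Submodule.span R {x}) (Finset.mem_filter.2 ⟨Finset.mem_univ _, hh⟩)
      omega
    push Not at hnot
    have hext := extend_bound hR C hC V x
    have hext' : (Nat.card ↥(V ⊔ Submodule.span R {x}) : ℝ) * (sec C V x).card ≤
      2 * Nat.card V * (sec C (V ⊔ Submodule.span R {x}) 0).card := by exact_mod_cast hext
    have hWpos : (0 : ℝ) < Nat.card ↥(V ⊔ Submodule.span R {x}) := by
      have : 0 < Nat.card ↥(V ⊔ Submodule.span R {x}) := by omega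
      exact_mod_cast this
    have h1 : (Nat.card ↥(V ⊔ Submodule.span R {x}) : ℝ) * (8 * K * (sec C V x).card) ≤
        Nat.card V * (16 * K * (sec C (V ⊔ Submodule.span R {x}) 0).card) := by
      have := mul_le_mul_of_nonneg_left hext' (by positivity : (0 : ℝ) ≤ 8 * K)
      nlinarith
    have h2 : (Nat.card V : ℝ) * (16 * K * (sec C (V ⊔ Submodule.span R {x}) 0).card) <
        Nat.card V * Nat.card ↥(V ⊔ Submodule.span R {x}) :=
      mul_lt_mul_of_pos_left hnot hVpos
    have h3 : (Nat.card ↥(V ⊔ Submodule.span R {x}) : ℝ) * Nat.card V <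
        Nat.card ↥(V ⊔ Submodule.span R {x}) * (8 * K * (sec C V x).card) :=
      mul_lt_mul_of_pos_left hcon hWpos
    nlinarith
  -- growth of sections
  have hgrow : ∀ x : M, x ∈ C → x ∉ V →
      4 * K * ((sec C V x).card : ℝ) ≤ 3 * (sec C V x + sec C V 0).card := by
    intro x hxC hx
    set s : ℝ := ((sec C V x).card : ℝ) with hs
    set b : ℝ := ((sec C V 0).card : ℝ) with hb
    set v : ℝ := (Nat.card V : ℝ) with hv
    set t : ℝ := (T.card : ℝ) with ht
    set w : ℝ := ((sec C V x + sec C V 0).card : ℝ) with hw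
    have hs0 : 0 < s := by
      have : 0 < (sec C V x).card := Finset.card_pos.2 ⟨x, by rw [mem_sec]; exact ⟨hxC, by simp⟩⟩
      rw [hs]
      exact_mod_cast this
    have hbd : (s * b) ^ 2 ≤ w * ((s * b) ^ 2 / v + s * b * v / t) :=
      sec_bound T hT0 hT C hC V x
    have hsm : 8 * K * s ≤ v := hsmall x hx
    have h1 : s * b ≤ w * (s * b / v + v / t) := by
      have e : w * ((s * b) ^ 2 / v + s * b * v / t) = (s * b) * (w * (s * b / v + v / t)) := by
        field_simp
      rw [e, sq] at hbd
      exact le_of_mul_le_mul_left hbd (by positivity)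
    by_contra hcon
    push Not at hcon
    have hw0 : 0 ≤ w := Nat.cast_nonneg _
    have h2 : 3 * (s * b) < 4 * K * s * (s * b / v + v / t) := by
      have hpos : 0 < s * b / v + v / t := by positivity
      have := mul_lt_mul_of_pos_right hcon hpos
      nlinarith
    have h3 : 3 * b < 4 * K * (s * b / v + v / t) := by
      have e : 4 * K * s * (s * b / v + v / t) = s * (4 * K * (s * b / v + v / t)) := by ring
      rw [e] at h2
      have h2' : s * (3 * b) < s * (4 * K * (s * b / v + v / t)) := by linarith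
      exact lt_of_mul_lt_mul_left h2' hs0.le
    have h4 : 4 * K * (s * b / v) ≤ b / 2 := by
      rw [mul_div_assoc', div_le_iff₀ hVpos]
      nlinarith
    have h5 : 4 * K * (v / t) ≤ 64 * K ^ 2 * b / t := by
      rw [mul_div_assoc']
      refine div_le_div_of_nonneg_right ?_ hTc.le
      nlinarith
    have h6 : 64 * K ^ 2 * b / t ≤ 64 / 26 * b := by
      rw [div_le_iff₀ hTc]
      nlinarith
    nlinarith
  -- disjoint union over cosets
  set π : M → M ⧸ V := fun c => (Submodule.Quotient.mk c : M ⧸ V) with hπ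
  have hfibsec : ∀ x : M, C.filter (fun c => π c = π x) = sec C V x := by
    intro x
    ext c
    rw [mem_sec, Finset.mem_filter, hπ]
    simp only [Submodule.Quotient.eq]
  have hdisj : ∀ (F : M ⧸ V → Finset M), (∀ q ∈ C.image π, F q ⊆ C + C) →
      (∀ q ∈ C.image π, ∀ m ∈ F q, π m = q) → ∑ q ∈ C.image π, (F q).card ≤ (C + C).card := by
    intro F hF1 hF2
    rw [← Finset.card_biUnion]
    · exact Finset.card_le_card (Finset.biUnion_subset.2 hF1)
    · intro a ha b hb hab
      change Disjoint (F a) (F b)
      rw [Finset.disjoint_left]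
      intro m hma hmb
      exact hab ((hF2 a ha m hma).symm.trans (hF2 b hb m hmb))
  have hπadd : ∀ c b : M, b ∈ sec C V 0 → π (c + b) = π c := by
    intro c b hb
    rw [mem_sec] at hb
    rw [hπ]
    simp only [Submodule.Quotient.eq]
    simpa using hb.2
  have hsum1 : ∑ q ∈ C.image π, ((C.filter fun c => π c = q) + sec C V 0).card ≤ (C + C).card := by
    refine hdisj _ ?_ ?_
    · intro q _
      exact Finset.add_subset_add (Finset.filter_subset _ _) (Finset.filter_subset _ _)
    · intro q _ m hm
      obtain ⟨c, hc, b, hb, rfl⟩ := Finset.mem_add.1 hm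
      rw [hπadd c b hb]
      exact (Finset.mem_filter.1 hc).2
  have hcardC : C.card = ∑ q ∈ C.image π, (C.filter fun c => π c = q).card :=
    Finset.card_eq_sum_card_image π C
  have h0im : π 0 ∈ C.image π := by
    rw [mem_sec] at hb₀
    have : π 0 = π b₀ := by
      rw [hπ]
      simp only [Submodule.Quotient.eq]
      have h1 := V.neg_mem hb₀.2
      simpa using h1
    rw [this]
    exact Finset.mem_image_of_mem _ hb₀.1
  have hmain : 4 * K * ((C.card : ℝ) - (sec C V 0).card) + 3 * (sec C V 0).card ≤
      3 * (C + C).card := by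
    have e1 : (C.card : ℝ) - (sec C V 0).card =
        ∑ q ∈ (C.image π).erase (π 0), ((C.filter fun c => π c = q).card : ℝ) := by
      rw [hcardC]
      push_cast
      rw [← Finset.add_sum_erase _ _ h0im, hfibsec 0]
      ring
    have e2 : ((sec C V 0).card : ℝ) + ∑ q ∈ (C.image π).erase (π 0),
        (((C.filter fun c => π c = q) + sec C V 0).card : ℝ) ≤ (C + C).card := by
      have h1 : (∑ q ∈ C.image π, (((C.filter fun c => π c = q) + sec C V 0).card : ℝ)) ≤
          (C + C).card := by exact_mod_cast hsum1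
      rw [← Finset.add_sum_erase _ _ h0im, hfibsec 0] at h1
      have h2 : ((sec C V 0).card : ℝ) ≤ (sec C V 0 + sec C V 0).card := by
        exact_mod_cast Finset.card_le_card_add_right ⟨b₀, hb₀⟩
      linarith
    have e3 : 4 * K * ∑ q ∈ (C.image π).erase (π 0), ((C.filter fun c => π c = q).card : ℝ) ≤
        3 * ∑ q ∈ (C.image π).erase (π 0),
          (((C.filter fun c => π c = q) + sec C V 0).card : ℝ) := by
      rw [Finset.mul_sum, Finset.mul_sum]
      refine Finset.sum_le_sum fun q hq => ?_
      obtain ⟨hq0, hq1⟩ := Finset.mem_erase.1 hq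
      obtain ⟨x, hx, rfl⟩ := Finset.mem_image.1 hq1
      rw [hfibsec x]
      refine hgrow x hx fun hxV => hq0 ?_
      rw [hπ]
      simp only [Submodule.Quotient.eq]
      simpa using hxV
    rw [e1]
    linarith
  have hquarter : (C.card : ℝ) ≤ 4 * (sec C V 0).card := by
    have h1 : 4 * K * ((C.card : ℝ) - (sec C V 0).card) + 3 * (sec C V 0).card ≤
      3 * (K * C.card) := hmain.trans (by linarith)
    by_contra hcon
    push Not at hcon
    have h2 : K * (4 * (sec C V 0).card) < K * C.card := mul_lt_mul_of_pos_left hcon hK0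
    nlinarith
  refine ⟨V, hquarter, hV, ?_⟩
  -- number of cosets
  have hsum2 : (C.image π).card * (sec C V 0).card ≤ (C + C).card := by
    have h1 : (C.image π).card * (sec C V 0).card ≤
        ∑ q ∈ C.image π, ((C.filter fun c => π c = q) + sec C V 0).card := by
      rw [← smul_eq_mul, ← Finset.sum_const]
      refine Finset.sum_le_sum fun q hq => ?_
      obtain ⟨x, hx, rfl⟩ := Finset.mem_image.1 hq
      exact Finset.card_le_card_add_left ⟨x, Finset.mem_filter.2 ⟨hx, rfl⟩⟩
    exact h1.trans hsum1
  have hsum2' : ((C.image π).card : ℝ) * (sec C V 0).card ≤ (C + C).card := by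
    exact_mod_cast hsum2
  have h3 : ((C.image π).card : ℝ) * (sec C V 0).card ≤ (4 * K) * (sec C V 0).card := by
    calc ((C.image π).card : ℝ) * (sec C V 0).card ≤ K * C.card := hsum2'.trans hK
      _ ≤ K * (4 * (sec C V 0).card) := by gcongr
      _ = _ := by ring
  exact le_of_mul_le_mul_right h3 hBpos

end Pool.Agent.TH136.DM
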