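import Mathlib.Combinatorics.Additive.RuzsaCovering
import Mathlib.Algebra.Group.Subgroup.Lattice
import Mathlib.Analysis.Convex.Basic
import Mathlib.Topology.MetricSpace.ProperSpace
import Mathlib.Analysis.Normed.Group.Constructions
import Mathlib.SetTheory.Cardinal.Finite
import Mathlib.Tactic

/-! Cutting a finite subgroup into translates of a coset progression of dimension one. -/

set_option autoImplicit false
open Finset
open scoped Pointwise Classical

namespace Pool.Agent.TH136.DM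

variable {Γ : Type*} [AddCommGroup Γ]

theorem card_toF (V : AddSubgroup Γ) (h : (V : Set Γ).Finite) : h.toFinset.card = Nat.card V :=
  (Set.ncard_eq_toFinset_card _ h).symm.trans (Nat.card_coe_set_eq (V : Set Γ)).symm

theorem card_sup_le (H : AddSubgroup Γ) [Finite H] (v : Γ) (j : ℕ) (hj : 0 < j)
    (hv : j • v ∈ H) :
    Finite ↥(H ⊔ AddSubgroup.zmultiples v) ∧
      Nat.card ↥(H ⊔ AddSubgroup.zmultiples v) ≤ j * Nat.card H := by
  set f : Fin j × H → Γ := fun p => (p.2 : Γ) + (p.1 : ℕ) • v with hf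
  have hsub : ((H ⊔ AddSubgroup.zmultiples v : AddSubgroup Γ) : Set Γ) ⊆ Set.range f := by
    intro x hx
    obtain ⟨y, hy, z, hz, rfl⟩ := AddSubgroup.mem_sup.1 (SetLike.mem_coe.1 hx)
    obtain ⟨k, rfl⟩ := AddSubgroup.mem_zmultiples_iff.1 hz
    have hj' : (j : ℤ) ≠ 0 := by omega
    have h1 : 0 ≤ k % j := Int.emod_nonneg _ hj'
    have h2 : k % j < j := Int.emod_lt_of_pos _ (by omega)
    refine ⟨(⟨(k % j).toNat, by omega⟩, ⟨y + (k / j) • (j • v), ?_⟩), ?_⟩
    · exact H.add_mem hy (H.zsmul_mem hv _)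
    · rw [hf]
      simp only
      have h3 : ((k % j).toNat : ℤ) = k % j := Int.toNat_of_nonneg h1
      have h4 : (k % j).toNat • v = (k % j) • v := by
        rw [← natCast_zsmul, h3]
      rw [h4, ← natCast_zsmul v j, ← mul_zsmul', add_assoc, ← add_zsmul]
      congr 2
      exact Int.mul_ediv_add_emod k j
  have hfin : (Set.range f).Finite := Set.finite_range f
  refine ⟨hfin.subset hsub, ?_⟩
  have h1 : Nat.card ↥(H ⊔ AddSubgroup.zmultiples v) ≤ (Set.range f).ncard := by
    have := Set.ncard_le_ncard hsub hfin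
    rw [← Nat.card_coe_set_eq] at this
    exact this
  refine h1.trans ?_
  rw [← Set.image_univ]
  refine (Set.ncard_image_le (Set.toFinite _)).trans (le_of_eq ?_)
  rw [Set.ncard_univ, Nat.card_prod, Nat.card_fin]

theorem cut (V : AddSubgroup Γ) [Finite V] (n : ℕ) (hn : 1 ≤ n) :
    ∃ (H : AddSubgroup Γ) (v : Γ) (m : ℕ) (Q : Finset Γ), Finite H ∧
      (2 * m + 1) * Nat.card H ≤ n ∧ Q.Nonempty ∧ (∀ x ∈ Q, x ∈ V) ∧
      min (Nat.card V) n ≤ 3 * Q.card ∧ ∀ x ∈ Q, ∃ j : ℕ, j ≤ m ∧ x - j • v ∈ H := by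
  have hVfin : (V : Set Γ).Finite := Set.toFinite _
  set P : ℕ → Prop := fun k => ∃ H : AddSubgroup Γ, H ≤ V ∧ Nat.card H = k with hP
  have hP1 : P 1 := ⟨⊥, bot_le, by simp⟩
  obtain ⟨H, hHV, hHc⟩ := Nat.findGreatest_spec (P := P) hn hP1
  have hHn : Nat.card H ≤ n := by
    rw [hHc]
    exact Nat.findGreatest_le n
  have hmax : ∀ H' : AddSubgroup Γ, H' ≤ V → Nat.card H' ≤ n → Nat.card H' ≤ Nat.card H := by
    intro H' h1 h2
    rw [hHc]
    exact Nat.le_findGreatest h2 ⟨H', h1, rfl⟩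
  have hHfin : Finite H := hVfin.subset hHV
  have hHpos : 0 < Nat.card H := Nat.card_pos
  by_cases hHV' : H = V
  · refine ⟨H, 0, 0, hVfin.toFinset, hHfin, by simpa using hHn, ⟨0, by simp⟩, by simp, ?_, ?_⟩
    · rw [card_toF V hVfin]
      exact (min_le_left _ _).trans (by omega)
    · intro x hx
      refine ⟨0, le_rfl, ?_⟩
      rw [hHV']
      simpa using hx
  · obtain ⟨v, hvV, hvH⟩ : ∃ v, v ∈ V ∧ v ∉ H := by
      by_contra hcon
      push Not at hcon
      exact hHV' (le_antisymm hHV hcon)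
    set L : ℕ := n / Nat.card H with hL
    have hL1 : 1 ≤ L := (Nat.one_le_div_iff hHpos).2 hHn
    set m : ℕ := (L - 1) / 2 with hm
    have hLm : 2 * m + 1 ≤ L ∧ L ≤ 2 * m + 2 := by omega
    have hLn : L * Nat.card H ≤ n := Nat.div_mul_le_self n _
    have hmn : (2 * m + 1) * Nat.card H ≤ n := (Nat.mul_le_mul_right _ hLm.1).trans hLn
    have hnotin : ∀ j : ℕ, 0 < j → j ≤ m → j • v ∉ H := by
      intro j hj hjm hjv
      obtain ⟨hf, hc⟩ := card_sup_le H v j hj hjv
      have hle : H ⊔ AddSubgroup.zmultiples v ≤ V :=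
        sup_le hHV (AddSubgroup.zmultiples_le_of_mem hvV)
      have hcn : Nat.card ↥(H ⊔ AddSubgroup.zmultiples v) ≤ n := by
        refine hc.trans (le_trans ?_ hmn)
        exact Nat.mul_le_mul_right _ (by omega)
      have h1 := hmax _ hle hcn
      have hss : (H : Set Γ) ⊂ ((H ⊔ AddSubgroup.zmultiples v : AddSubgroup Γ) : Set Γ) := by
        refine ⟨fun y hy => AddSubgroup.mem_sup_left hy, fun hcontra => hvH ?_⟩
        exact hcontra (AddSubgroup.mem_sup_right (AddSubgroup.mem_zmultiples v))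
      have h2 := Set.ncard_lt_ncard hss (Set.toFinite _)
      rw [← Nat.card_coe_set_eq, ← Nat.card_coe_set_eq] at h2
      exact absurd h1 (not_le.2 h2)
    have hHs : (H : Set Γ).Finite := Set.toFinite _
    set HF : Finset Γ := hHs.toFinset with hHF
    have hHFc : HF.card = Nat.card H := card_toF H hHs
    have hHFm : ∀ x, x ∈ HF ↔ x ∈ H := by
      intro x
      simp [hHF]
    have hinj : Set.InjOn (fun p : ℕ × Γ => p.1 • v + p.2) (Finset.range (m + 1) ×ˢ HF) := by
      have key : ∀ i j : ℕ, i ≤ j → j ≤ m → ∀ x ∈ H, ∀ y ∈ H, i • v + x = j • v + y → i = j := by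
        intro i j hij hjm x hx y hy h
        by_contra hne
        refine hnotin (j - i) (by omega) (by omega) ?_
        have h1 : (j - i) • v = x - y := by
          have h2 : j • v = (j - i) • v + i • v := by
            rw [← add_nsmul, Nat.sub_add_cancel hij]
          rw [h2] at h
          have : (j - i) • v = (i • v + x) - i • v - y := by
            rw [h]; abel
          rw [this]; abel
        rw [h1]
        exact H.sub_mem hx hy
      rintro ⟨i, x⟩ hix ⟨j, y⟩ hjy heq
      simp only [Set.mem_prod, Finset.coe_range, Set.mem_Iio, Finset.mem_coe, hHFm] at hix hjy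
      simp only at heq
      have hij : i = j := by
        rcases le_total i j with hle | hle
        · exact key i j hle (by omega) x hix.2 y hjy.2 heq
        · exact (key j i hle (by omega) y hjy.2 x hix.2 heq.symm).symm
      subst hij
      rw [add_left_cancel heq]
    refine ⟨H, v, m, (Finset.range (m + 1) ×ˢ HF).image (fun p => p.1 • v + p.2), hHfin, hmn,
      ?_, ?_, ?_, ?_⟩
    · refine Finset.Nonempty.image ⟨(0, 0), ?_⟩ _
      rw [Finset.mem_product]
      exact ⟨by simp, (hHFm 0).2 H.zero_mem⟩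
    · intro x hx
      obtain ⟨⟨i, y⟩, hiy, rfl⟩ := Finset.mem_image.1 hx
      rw [Finset.mem_product] at hiy
      exact V.add_mem (V.nsmul_mem hvV _) (hHV ((hHFm y).1 hiy.2))
    · rw [Finset.card_image_of_injOn (by simpa using hinj), Finset.card_product,
        Finset.card_range, hHFc]
      refine (min_le_right _ _).trans ?_
      have h1 : n < Nat.card H * (L + 1) := by
        have := Nat.lt_mul_div_succ n hHpos
        simpa [hL] using this
      have h2 : Nat.card H * (L + 1) ≤ Nat.card H * (3 * (m + 1)) :=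
        Nat.mul_le_mul_left _ (by omega)
      calc n ≤ Nat.card H * (3 * (m + 1)) := h1.le.trans h2
        _ = 3 * ((m + 1) * Nat.card H) := by ring
    · intro x hx
      obtain ⟨⟨i, y⟩, hiy, rfl⟩ := Finset.mem_image.1 hx
      rw [Finset.mem_product, Finset.mem_range] at hiy
      refine ⟨i, by omega, ?_⟩
      simp only [add_sub_cancel_left]
      exact (hHFm y).1 hiy.2

/-- From a subgroup `V` of size `≤ D |A|` with `n` cosets covering `A` to a centred convex coset
progression of dimension one and volume at most `|A|`, `3 n D` translates of which cover `A`. -/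
theorem official (A : Finset Γ) (hA : A.Nonempty) (n D : ℝ) (hn : 0 ≤ n) (hD : 1 ≤ D)
    (V : AddSubgroup Γ) [Finite V] (S : Finset Γ) (hVc : (Nat.card V : ℝ) ≤ D * A.card)
    (hS : (S.card : ℝ) ≤ n) (hcov : ∀ a ∈ A, ∃ s ∈ S, a - s ∈ V) :
    ∃ (B : Set (Fin 1 → ℝ)) (ψ : (Fin 1 → ℤ) →+ Γ) (H : AddSubgroup Γ) (T : Finset Γ),
      Convex ℝ B ∧ IsCompact B ∧ (interior B).Nonempty ∧ (∀ x ∈ B, -x ∈ B) ∧ Finite H ∧
      {x : Fin 1 → ℤ | (fun i => (x i : ℝ)) ∈ B}.ncard * Nat.card H ≤ A.card ∧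
      (T.card : ℝ) ≤ 3 * n * D ∧
      ∀ a ∈ A, ∃ t ∈ T, ∃ x : Fin 1 → ℤ, (fun i => (x i : ℝ)) ∈ B ∧
        ∃ h ∈ H, a = t + ψ x + h := by
  obtain ⟨H, v, m, Q, hHf, hvol, hQne, hQV, hQc, hQ⟩ := cut V A.card hA.card_pos
  have hVs : (V : Set Γ).Finite := Set.toFinite _
  set VF : Finset Γ := hVs.toFinset with hVF
  have hVFc : VF.card = Nat.card V := card_toF V hVs
  have hAQ : (A + Q).card ≤ S.card * Nat.card V := by
    have hsub : A + Q ⊆ S + VF := by
      intro z hz
      obtain ⟨a, ha, x, hx, rfl⟩ := Finset.mem_add.1 hz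
      obtain ⟨s, hs, has⟩ := hcov a ha
      refine Finset.mem_add.2 ⟨s, hs, (a - s) + x, ?_, by abel⟩
      rw [hVF, Set.Finite.mem_toFinset]
      exact V.add_mem has (hQV x hx)
    calc (A + Q).card ≤ (S + VF).card := Finset.card_le_card hsub
      _ ≤ S.card * VF.card := Finset.card_add_le
      _ = _ := by rw [hVFc]
  have hAc : (0 : ℝ) < A.card := by exact_mod_cast hA.card_pos
  have hVpos : (0 : ℝ) < Nat.card V := by
    have : 0 < Nat.card V := Nat.card_pos
    exact_mod_cast this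
  -- size of `V` against `Q`
  have hVQ : (Nat.card V : ℝ) ≤ 3 * D * Q.card := by
    have hQ0 : (0 : ℝ) ≤ Q.card := Nat.cast_nonneg _
    rcases le_total (Nat.card V) A.card with h | h
    · rw [min_eq_left h] at hQc
      have h1 : (Nat.card V : ℝ) ≤ 3 * Q.card := by exact_mod_cast hQc
      nlinarith
    · rw [min_eq_right h] at hQc
      have h1 : (A.card : ℝ) ≤ 3 * Q.card := by exact_mod_cast hQc
      calc (Nat.card V : ℝ) ≤ D * A.card := hVc
        _ ≤ D * (3 * Q.card) := by gcongr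
        _ = 3 * D * Q.card := by ring
  have hcovK : ((A + Q).card : ℝ) ≤ (3 * n * D) * Q.card := by
    have h1 : ((A + Q).card : ℝ) ≤ S.card * Nat.card V := by exact_mod_cast hAQ
    calc ((A + Q).card : ℝ) ≤ S.card * Nat.card V := h1
      _ ≤ n * (3 * D * Q.card) := by gcongr
      _ = (3 * n * D) * Q.card := by ring
  obtain ⟨T, -, hTc, hT⟩ := Finset.ruzsa_covering_add hQne hcovK
  set c : ℝ := (m : ℝ) + 1 / 2 with hc
  have hc0 : 0 < c := by positivity
  set B : Set (Fin 1 → ℝ) := Set.Icc (fun _ => -c) (fun _ => c) with hB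
  have hBm : ∀ x : Fin 1 → ℤ, (fun i => (x i : ℝ)) ∈ B ↔ |x 0| ≤ m := by
    intro x
    rw [hB, Set.mem_Icc, Pi.le_def, Pi.le_def]
    simp only [Fin.forall_fin_one]
    rw [abs_le]
    constructor
    · rintro ⟨h1, h2⟩
      constructor
      · by_contra hcon
        push Not at hcon
        have : x 0 ≤ -(m : ℤ) - 1 := by omega
        have h3 : (x 0 : ℝ) ≤ -(m : ℝ) - 1 := by exact_mod_cast this
        rw [hc] at h1
        linarith
      · by_contra hcon
        push Not at hcon
        have : (m : ℤ) + 1 ≤ x 0 := by omega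
        have h3 : (m : ℝ) + 1 ≤ (x 0 : ℝ) := by exact_mod_cast this
        rw [hc] at h2
        linarith
    · rintro ⟨h1, h2⟩
      have h3 : -(m : ℝ) ≤ (x 0 : ℝ) := by exact_mod_cast h1
      have h4 : (x 0 : ℝ) ≤ (m : ℝ) := by exact_mod_cast h2
      rw [hc]
      constructor <;> linarith
  refine ⟨B, ⟨⟨fun x => x 0 • v, by simp⟩, fun x y => by simp [add_zsmul]⟩, H, T, convex_Icc _ _,
    isCompact_Icc, ?_, ?_, hHf, ?_, hTc, ?_⟩
  · refine ⟨fun _ => 0, ?_⟩
    rw [mem_interior_iff_mem_nhds, hB]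
    refine pi_Icc_mem_nhds (fun _ => ?_) (fun _ => ?_)
    · linarith
    · linarith
  · intro x hx
    rw [hB, Set.mem_Icc, Pi.le_def, Pi.le_def] at hx ⊢
    simp only [Fin.forall_fin_one, Pi.neg_apply] at hx ⊢
    constructor <;> linarith [hx.1, hx.2]
  · have h1 : {x : Fin 1 → ℤ | (fun i => (x i : ℝ)) ∈ B}.ncard ≤ 2 * m + 1 := by
      have h2 : {x : Fin 1 → ℤ | (fun i => (x i : ℝ)) ∈ B} ⊆
          (fun k : ℤ => (fun _ : Fin 1 => k)) '' (Finset.Icc (-(m : ℤ)) m : Finset ℤ) := by
        intro x hx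
        have hx' := (hBm x).1 hx
        rw [abs_le] at hx'
        refine ⟨x 0, by simpa using hx', ?_⟩
        funext i
        rw [Subsingleton.elim i 0]
      refine (Set.ncard_le_ncard h2 (Set.toFinite _)).trans
        ((Set.ncard_image_le (Set.toFinite _)).trans ?_)
      rw [Set.ncard_coe_finset, Int.card_Icc]
      omega
    exact (Nat.mul_le_mul_right _ h1).trans hvol
  · intro a ha
    obtain ⟨t, ht, y, hy, hty⟩ := Finset.mem_add.1 (hT ha)
    obtain ⟨q, hq, r, hr, rfl⟩ := Finset.mem_sub.1 hy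
    obtain ⟨i, hi, hiq⟩ := hQ q hq
    obtain ⟨j, hj, hjr⟩ := hQ r hr
    refine ⟨t, ht, fun _ => (i : ℤ) - j, ?_, (q - i • v) - (r - j • v), H.sub_mem hiq hjr, ?_⟩
    · rw [hBm, abs_le]
      constructor <;> omega
    · rw [← hty]
      simp only [AddMonoidHom.coe_mk, ZeroHom.coe_mk]
      rw [sub_zsmul, natCast_zsmul, natCast_zsmul]
      abel

end Pool.Agent.TH136.DM
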