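import Pool.Agent.TH136.DM.Main
import Mathlib.Algebra.Field.Subfield.Basic

/-! Bounded dilates of a set in a vector space over a finite field: a generating set of dilates of
size `> |F|^(1/2^J)` gives all dilates. -/

set_option autoImplicit false
open Finset
open scoped Pointwise Classical

namespace Pool.Agent.TH136.DM

variable {F M : Type*} [Field F] [AddCommGroup M] [Module F M]

/-- `G A K x`: the dilate by `x` is bounded. -/
def G (A : Finset M) (K : ℝ) (x : F) : Prop :=
  ((A + A.image fun a => x • a).card : ℝ) ≤ K * A.card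

theorem G.mono {A : Finset M} {K L : ℝ} {x : F} (h : G A K x) (hKL : K ≤ L) : G A L x :=
  le_trans h (mul_le_mul_of_nonneg_right hKL (Nat.cast_nonneg _))

theorem G_zero {A : Finset M} {K : ℝ} (hK : 1 ≤ K) : G A K (0 : F) := by
  unfold G
  have h1 : (A + A.image fun a => (0 : F) • a).card ≤ A.card := by
    refine Finset.card_le_card ?_
    intro z hz
    obtain ⟨a, ha, b, hb, rfl⟩ := Finset.mem_add.1 hz
    obtain ⟨c, _, rfl⟩ := Finset.mem_image.1 hb
    simpa using ha
  have h2 : ((A + A.image fun a => (0 : F) • a).card : ℝ) ≤ A.card := by exact_mod_cast h1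
  nlinarith [(Nat.cast_nonneg A.card : (0 : ℝ) ≤ A.card)]

theorem card_img (A : Finset M) {x : F} (hx : x ≠ 0) : (A.image fun a => x • a).card = A.card :=
  Finset.card_image_of_injective _ (smul_right_injective M hx)

theorem img_img (A : Finset M) (x y : F) :
    (A.image fun a => x • a).image (fun a => y • a) = A.image fun a => (y * x) • a := by
  rw [Finset.image_image]
  congr 1
  funext a
  simp [smul_smul]

theorem img_add (A B : Finset M) (x : F) :
    (A + B).image (fun a => x • a) = A.image (fun a => x • a) + B.image (fun a => x • a) := by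
  ext z
  simp only [Finset.mem_image, Finset.mem_add]
  constructor
  · rintro ⟨w, ⟨a, ha, b, hb, rfl⟩, rfl⟩
    exact ⟨x • a, ⟨a, ha, rfl⟩, x • b, ⟨b, hb, rfl⟩, by rw [smul_add]⟩
  · rintro ⟨w, ⟨a, ha, rfl⟩, w', ⟨b, hb, rfl⟩, rfl⟩
    exact ⟨a + b, ⟨a, ha, b, hb, rfl⟩, by rw [smul_add]⟩

theorem G_mul {A : Finset M} (hA : A.Nonempty) {K L : ℝ} (hK1 : 1 ≤ K) (hL1 : 1 ≤ L) {x y : F}
    (hx : G A K x) (hy : G A L y) : G A (K * L) (x * y) := by
  by_cases hx0 : x = 0
  · rw [hx0, zero_mul]
    exact G_zero (by nlinarith)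
  have hc : (0 : ℝ) < A.card := by exact_mod_cast hA.card_pos
  have h := Finset.ruzsa_triangle_inequality_add_add_add A (A.image fun a => x • a)
    (A.image fun a => (x * y) • a)
  have e : (A.image fun a => x • a) + (A.image fun a => (x * y) • a) =
      (A + A.image fun a => y • a).image (fun a => x • a) := by
    rw [img_add, img_img]
  rw [e, card_img _ hx0, card_img _ hx0] at h
  have h' : ((A + A.image fun a => (x * y) • a).card : ℝ) * A.card ≤
      (A + A.image fun a => x • a).card * (A + A.image fun a => y • a).card := by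
    exact_mod_cast h
  unfold G at hx hy ⊢
  have h2 : ((A + A.image fun a => x • a).card : ℝ) * (A + A.image fun a => y • a).card ≤
      (K * A.card) * (L * A.card) := mul_le_mul hx hy (Nat.cast_nonneg _) (by positivity)
  have h3 : ((A + A.image fun a => (x * y) • a).card : ℝ) * A.card ≤
      (K * L * A.card) * A.card := by
    refine (h'.trans h2).trans (le_of_eq ?_)
    ring
  exact le_of_mul_le_mul_right h3 hc

theorem G_inv {A : Finset M} {K : ℝ} {x : F} (hx0 : x ≠ 0) (hx : G A K x) :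
    G A K x⁻¹ := by
  unfold G at hx ⊢
  have e : (A + A.image fun a => x⁻¹ • a).image (fun a => x • a) =
      (A.image fun a => x • a) + A := by
    rw [img_add, img_img, mul_inv_cancel₀ hx0]
    simp
  have h : (A + A.image fun a => x⁻¹ • a).card = (A + A.image fun a => x • a).card := by
    rw [← card_img (A + A.image fun a => x⁻¹ • a) hx0, e, add_comm]
  rw [h]
  exact hx

theorem G_lin {A : Finset M} (hA : A.Nonempty) {K : ℝ} (h1 : ((A + A).card : ℝ) ≤ K * A.card)
    {x y : F} (hx : G A K x) (hy : G A K y) :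
    G A ((3 * K) ^ 3) (x + y) ∧ G A ((3 * K) ^ 3) (x - y) := by
  set B : Finset M := A ∪ ((A.image fun a => x • a) ∪ (A.image fun a => y • a)) with hB
  have hBc : ((A + B).card : ℝ) ≤ (3 * K) * A.card := by
    have h2 : (A + B).card ≤ (A + A).card + ((A + A.image fun a => x • a).card +
        (A + A.image fun a => y • a).card) := by
      rw [hB, Finset.add_union, Finset.add_union]
      exact (Finset.card_union_le _ _).trans (Nat.add_le_add_left (Finset.card_union_le _ _) _)
    have h3 : ((A + B).card : ℝ) ≤ (A + A).card + ((A + A.image fun a => x • a).card +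
        (A + A.image fun a => y • a).card) := by exact_mod_cast h2
    unfold G at hx hy
    linarith
  have hA' : A ⊆ B := Finset.subset_union_left
  have hx' : (A.image fun a => x • a) ⊆ B :=
    Finset.subset_union_left.trans Finset.subset_union_right
  have hy' : (A.image fun a => y • a) ⊆ B :=
    Finset.subset_union_right.trans Finset.subset_union_right
  constructor
  · have h := pl A B hA (3 * K) hBc 3 0
    unfold G
    refine le_trans (Nat.cast_le.2 (Finset.card_le_card ?_)) h
    intro z hz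
    obtain ⟨a, ha, b, hb, rfl⟩ := Finset.mem_add.1 hz
    obtain ⟨c, hc, rfl⟩ := Finset.mem_image.1 hb
    rw [zero_nsmul, sub_zero]
    have e : a + (x + y) • c = a + x • c + y • c := by rw [add_smul]; abel
    rw [e, show (3 : ℕ) = 2 + 1 from rfl, succ_nsmul, two_nsmul]
    exact Finset.add_mem_add (Finset.add_mem_add (hA' ha)
      (hx' (Finset.mem_image_of_mem _ hc))) (hy' (Finset.mem_image_of_mem _ hc))
  · have h := pl A B hA (3 * K) hBc 2 1
    unfold G
    refine le_trans (Nat.cast_le.2 (Finset.card_le_card ?_)) h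
    intro z hz
    obtain ⟨a, ha, b, hb, rfl⟩ := Finset.mem_add.1 hz
    obtain ⟨c, hc, rfl⟩ := Finset.mem_image.1 hb
    have e : a + (x - y) • c = (a + x • c) - y • c := by rw [sub_smul]; abel
    rw [e, one_nsmul, two_nsmul]
    exact Finset.sub_mem_sub (Finset.add_mem_add (hA' ha)
      (hx' (Finset.mem_image_of_mem _ hc))) (hy' (Finset.mem_image_of_mem _ hc))

/-- the ratio set -/
def Rt (S : Set F) : Set F := {x | ∃ a ∈ S, ∃ b ∈ S, ∃ c ∈ S, ∃ d ∈ S, c ≠ d ∧ x * (c - d) = a - b}

theorem rt_closed {S : Set F} (h0 : (0 : F) ∈ S) (h1 : (1 : F) ∈ S)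
    (hgen : ∀ E : Subfield F, S ⊆ E → E = ⊤) (hne : Rt S ≠ Set.univ) :
    ∃ x ∈ Rt S, ∃ y ∈ Rt S, x + y ∉ Rt S ∨ x * y ∉ Rt S := by
  by_contra hcon
  push Not at hcon
  apply hne
  have hsub : S ⊆ Rt S := fun a ha => ⟨a, ha, 0, h0, 1, h1, 0, h0, one_ne_zero, by simp⟩
  have hneg : ∀ x ∈ Rt S, -x ∈ Rt S := by
    rintro x ⟨a, ha, b, hb, c, hc, d, hd, hcd, h⟩
    exact ⟨b, hb, a, ha, c, hc, d, hd, hcd, by rw [neg_mul, h]; ring⟩
  have hinv : ∀ x ∈ Rt S, x⁻¹ ∈ Rt S := by
    rintro x ⟨a, ha, b, hb, c, hc, d, hd, hcd, h⟩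
    by_cases hx : x = 0
    · rw [hx, inv_zero]
      exact hsub h0
    · have hab : a ≠ b := by
        intro hab
        rw [hab, sub_self] at h
        rcases mul_eq_zero.1 h with h | h
        · exact hx h
        · exact hcd (sub_eq_zero.1 h)
      refine ⟨c, hc, d, hd, a, ha, b, hb, hab, ?_⟩
      rw [← h]
      field_simp
  let E : Subfield F :=
    { carrier := Rt S
      mul_mem' := fun {a b} ha hb => (hcon a ha b hb).2
      one_mem' := hsub h1
      add_mem' := fun {a b} ha hb => (hcon a ha b hb).1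
      zero_mem' := hsub h0
      neg_mem' := fun {a} ha => hneg a ha
      inv_mem' := fun a ha => hinv a ha }
  have hE : E = ⊤ := hgen E hsub
  ext x
  refine ⟨fun _ => Set.mem_univ _, fun _ => ?_⟩
  have : x ∈ E := by rw [hE]; trivial
  exact this

/-- one growth step -/
theorem step [Finite F] {A : Finset M} (hA : A.Nonempty) {K : ℝ} (hK1 : 1 ≤ K)
    (h1 : ((A + A).card : ℝ) ≤ K * A.card)
    (hgen : ∀ E : Subfield F, {x : F | G A K x} ⊆ E → E = ⊤) :
    (∀ x : F, G A ((3 * K) ^ 6) x) ∨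
      {x : F | G A K x}.ncard ^ 2 ≤ {x : F | G A ((3 * K) ^ 69) x}.ncard := by
  set S : Set F := {x : F | G A K x} with hS
  have h0S : (0 : F) ∈ S := G_zero hK1
  have h1S : (1 : F) ∈ S := by
    change G A K (1 : F)
    unfold G
    simpa using h1
  have h3K : 1 ≤ 3 * K := by linarith
  have hpow : ∀ n : ℕ, 1 ≤ (3 * K) ^ n := fun n => one_le_pow₀ h3K
  have hmonoK : ∀ n : ℕ, 1 ≤ n → K ≤ (3 * K) ^ n := by
    intro n hn
    calc K ≤ 3 * K := by linarith
      _ = (3 * K) ^ 1 := (pow_one _).symm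
      _ ≤ (3 * K) ^ n := pow_le_pow_right₀ h3K hn
  have hAA : ∀ n : ℕ, 1 ≤ n → ((A + A).card : ℝ) ≤ (3 * K) ^ n * A.card := fun n hn =>
    h1.trans (mul_le_mul_of_nonneg_right (hmonoK n hn) (Nat.cast_nonneg _))
  have hdiff : ∀ c ∈ S, ∀ d ∈ S, G A ((3 * K) ^ 3) (c - d) := fun c hc d hd =>
    (G_lin hA h1 hc hd).2
  have hdd : ∀ a ∈ S, ∀ b ∈ S, ∀ c ∈ S, ∀ d ∈ S, G A ((3 * K) ^ 6) ((a - b) * (c - d)) := by
    intro a ha b hb c hc d hd
    have := G_mul hA (hpow 3) (hpow 3) (hdiff a ha b hb) (hdiff c hc d hd)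
    rwa [← pow_add] at this
  by_cases hR : Rt S = Set.univ
  · left
    intro x
    have hx : x ∈ Rt S := by rw [hR]; trivial
    obtain ⟨a, ha, b, hb, c, hc, d, hd, hcd, h⟩ := hx
    have hcd' : c - d ≠ 0 := sub_ne_zero.2 hcd
    have e : x = (a - b) * (c - d)⁻¹ := by
      rw [← h]
      field_simp
    rw [e]
    have := G_mul hA (hpow 3) (hpow 3) (hdiff a ha b hb) (G_inv hcd' (hdiff c hc d hd))
    rwa [← pow_add] at this
  · right
    obtain ⟨x, ⟨a, ha, b, hb, c, hc, d, hd, hcd, hx⟩, y,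
      ⟨a', ha', b', hb', c', hc', d', hd', hcd', hy⟩, hxy⟩ := rt_closed h0S h1S hgen hR
    have hδ : (c - d) * (c' - d') ≠ 0 :=
      mul_ne_zero (sub_ne_zero.2 hcd) (sub_ne_zero.2 hcd')
    -- the element `z`
    obtain ⟨z, hz, hGz⟩ : ∃ z, z ∉ Rt S ∧ G A ((3 * K) ^ 21) ((c - d) * (c' - d') * z) := by
      rcases hxy with h | h
      · refine ⟨x + y, h, ?_⟩
        have e : (c - d) * (c' - d') * (x + y) = (a - b) * (c' - d') + (a' - b') * (c - d) := by
          rw [← hx, ← hy]; ring
        rw [e]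
        have := (G_lin hA (hAA 6 (by norm_num)) (hdd a ha b hb c' hc' d' hd')
          (hdd a' ha' b' hb' c hc d hd)).1
        refine this.mono ?_
        have h3 : (0 : ℝ) ≤ (3 * K) ^ 18 := by positivity
        have h27 : (27 : ℝ) ≤ (3 * K) ^ 3 := by
          have : (3 : ℝ) ≤ 3 * K := by linarith
          calc (27 : ℝ) = 3 ^ 3 := by norm_num
            _ ≤ (3 * K) ^ 3 := pow_le_pow_left₀ (by norm_num) this 3
        calc (3 * (3 * K) ^ 6) ^ 3 = 27 * (3 * K) ^ 18 := by ring
          _ ≤ (3 * K) ^ 3 * (3 * K) ^ 18 := mul_le_mul_of_nonneg_right h27 h3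
          _ = (3 * K) ^ 21 := by ring
      · refine ⟨x * y, h, ?_⟩
        have e : (c - d) * (c' - d') * (x * y) = (a - b) * (a' - b') := by
          rw [← hx, ← hy]; ring
        rw [e]
        exact (hdd a ha b hb a' ha' b' hb').mono (pow_le_pow_right₀ h3K (by norm_num))
    set δ := (c - d) * (c' - d') with hδd
    -- the injection
    have hinj : Set.InjOn (fun p : F × F => δ * p.1 + δ * z * p.2) (S ×ˢ S) := by
      rintro ⟨s, t⟩ hst ⟨s', t'⟩ hst' heq
      simp only [Set.mem_prod] at hst hst'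
      simp only at heq
      have h2 : z * (t - t') = s' - s := by
        have : δ * (z * (t - t') - (s' - s)) = 0 := by linear_combination heq
        rcases mul_eq_zero.1 this with h | h
        · exact absurd h hδ
        · exact sub_eq_zero.1 h
      by_cases htt : t = t'
      · rw [htt, sub_self, mul_zero] at h2
        have : s' = s := sub_eq_zero.1 h2.symm
        rw [htt, this]
      · exact absurd ⟨s', hst'.1, s, hst.1, t, hst.2, t', hst'.2, htt, h2⟩ hz
    have himg : (fun p : F × F => δ * p.1 + δ * z * p.2) '' (S ×ˢ S) ⊆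
        {x : F | G A ((3 * K) ^ 69) x} := by
      rintro _ ⟨⟨s, t⟩, hst, rfl⟩
      simp only [Set.mem_prod] at hst
      have hG1 : G A ((3 * K) ^ 22) (δ * s) := by
        refine (G_mul hA (hpow 6) hK1 (hdd c hc d hd c' hc' d' hd') hst.1).mono ?_
        calc (3 * K) ^ 6 * K ≤ (3 * K) ^ 6 * (3 * K) ^ 1 :=
              mul_le_mul_of_nonneg_left (hmonoK 1 le_rfl) (by positivity)
          _ = (3 * K) ^ 7 := by ring
          _ ≤ (3 * K) ^ 22 := pow_le_pow_right₀ h3K (by norm_num)
      have hG2 : G A ((3 * K) ^ 22) (δ * z * t) := by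
        refine (G_mul hA (hpow 21) hK1 hGz hst.2).mono ?_
        calc (3 * K) ^ 21 * K ≤ (3 * K) ^ 21 * (3 * K) ^ 1 :=
              mul_le_mul_of_nonneg_left (hmonoK 1 le_rfl) (by positivity)
          _ = (3 * K) ^ 22 := by ring
      refine ((G_lin hA (hAA 22 (by norm_num)) hG1 hG2).1).mono ?_
      have h3 : (0 : ℝ) ≤ (3 * K) ^ 66 := by positivity
      have h27 : (27 : ℝ) ≤ (3 * K) ^ 3 := by
        have : (3 : ℝ) ≤ 3 * K := by linarith
        calc (27 : ℝ) = 3 ^ 3 := by norm_num
          _ ≤ (3 * K) ^ 3 := pow_le_pow_left₀ (by norm_num) this 3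
      calc (3 * (3 * K) ^ 22) ^ 3 = 27 * (3 * K) ^ 66 := by ring
        _ ≤ (3 * K) ^ 3 * (3 * K) ^ 66 := mul_le_mul_of_nonneg_right h27 h3
        _ = (3 * K) ^ 69 := by ring
    calc S.ncard ^ 2 = (S ×ˢ S).ncard := by rw [Set.ncard_prod, sq]
      _ = ((fun p : F × F => δ * p.1 + δ * z * p.2) '' (S ×ˢ S)).ncard :=
          (Set.InjOn.ncard_image hinj).symm
      _ ≤ _ := Set.ncard_le_ncard himg (Set.toFinite _)

/-- All dilates are bounded. -/
theorem all_dilates [Finite F] {A : Finset M} (hA : A.Nonempty) (J : ℕ) : ∀ (K : ℝ), 1 ≤ K →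
    ((A + A).card : ℝ) ≤ K * A.card →
    (∀ E : Subfield F, {x : F | G A K x} ⊆ E → E = ⊤) →
    Nat.card F ≤ {x : F | G A K x}.ncard ^ 2 ^ J →
    ∃ L : ℝ, 3 * L ≤ (3 * K) ^ 70 ^ J ∧ ∀ x : F, G A L x := by
  induction J with
  | zero =>
    intro K _ _ _ hcard
    rw [pow_zero, pow_one] at hcard
    refine ⟨K, by rw [pow_zero, pow_one], fun x => ?_⟩
    have h : {x : F | G A K x} = Set.univ := by
      refine Set.eq_of_subset_of_ncard_le (Set.subset_univ _) ?_ (Set.toFinite _)
      rw [Set.ncard_univ]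
      exact hcard
    have hx : x ∈ {x : F | G A K x} := by rw [h]; trivial
    exact hx
  | succ J ih =>
    intro K hK1 h1 hgen hcard
    have h3K : 1 ≤ 3 * K := by linarith
    have h3K' : 3 ≤ 3 * K := by linarith
    rcases step hA hK1 h1 hgen with h | h
    · refine ⟨(3 * K) ^ 6, ?_, h⟩
      calc 3 * (3 * K) ^ 6 ≤ (3 * K) * (3 * K) ^ 6 :=
            mul_le_mul_of_nonneg_right h3K' (by positivity)
        _ = (3 * K) ^ 7 := by ring
        _ ≤ (3 * K) ^ 70 ^ (J + 1) := by
            refine pow_le_pow_right₀ h3K ?_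
            calc 7 ≤ 70 ^ 1 := by norm_num
              _ ≤ 70 ^ (J + 1) := Nat.pow_le_pow_right (by norm_num) (by omega)
    · have hmono : {x : F | G A K x} ⊆ {x : F | G A ((3 * K) ^ 69) x} := by
        intro x hx
        refine G.mono hx ?_
        calc K ≤ 3 * K := by linarith
          _ = (3 * K) ^ 1 := (pow_one _).symm
          _ ≤ (3 * K) ^ 69 := pow_le_pow_right₀ h3K (by norm_num)
      obtain ⟨L, hL, hall⟩ := ih ((3 * K) ^ 69) (one_le_pow₀ h3K)
        (h1.trans (mul_le_mul_of_nonneg_right (by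
          calc K ≤ 3 * K := by linarith
            _ = (3 * K) ^ 1 := (pow_one _).symm
            _ ≤ (3 * K) ^ 69 := pow_le_pow_right₀ h3K (by norm_num)) (Nat.cast_nonneg _)))
        (fun E hE => hgen E (hmono.trans hE))
        (by
          refine le_trans hcard ?_
          rw [pow_succ 2 J, mul_comm, pow_mul]
          exact Nat.pow_le_pow_left h _)
      refine ⟨L, hL.trans ?_, hall⟩
      calc (3 * (3 * K) ^ 69) ^ 70 ^ J ≤ ((3 * K) ^ 70) ^ 70 ^ J := by
            refine pow_le_pow_left₀ (by positivity) ?_ _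
            calc 3 * (3 * K) ^ 69 ≤ (3 * K) * (3 * K) ^ 69 :=
                  mul_le_mul_of_nonneg_right h3K' (by positivity)
              _ = (3 * K) ^ 70 := by ring
        _ = (3 * K) ^ 70 ^ (J + 1) := by rw [← pow_mul, pow_succ, mul_comm 70]

end Pool.Agent.TH136.DM
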