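import Pool.Agent.TH136.DM.Cone

/-! Unit-invariant sets of small doubling: the sumset is almost the whole span. -/

set_option autoImplicit false
open Finset
open scoped Pointwise Classical

namespace Pool.Agent.TH136.DM

variable {R M : Type*} [Ring R] [AddCommGroup M] [Module R M]

theorem real_ineq (c w v t K₀ : ℝ) (hc : 0 < c) (hwK : w = K₀ * c) (hv : 0 < v)
    (hv16 : v ≤ 16 * w) (ht : 26 * K₀ ^ 2 ≤ t)
    (hb : (c * c) ^ 2 ≤ w * ((c * c) ^ 2 / v + c * c * v / t)) (hK : 1 ≤ K₀) :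
    v ≤ (1 + 2 * K₀ ^ 2 / t) * w := by
  have hw : 0 < w := by rw [hwK]; positivity
  have ht0 : 0 < t := by nlinarith
  obtain ⟨y, hvy⟩ : ∃ y, v = y * w := ⟨v / w, by field_simp⟩
  obtain ⟨s, hs⟩ : ∃ s, K₀ ^ 2 = s * t := ⟨K₀ ^ 2 / t, by field_simp⟩
  have hs0 : 0 < s := by
    by_contra hcon
    push Not at hcon
    nlinarith
  have hs1 : s ≤ 1 / 26 := by
    by_contra hcon
    push Not at hcon
    nlinarith
  have hy0 : 0 < y := by
    by_contra hcon
    push Not at hcon
    nlinarith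
  have hy16 : y ≤ 16 := by
    have h : y * w ≤ 16 * w := by rw [← hvy]; exact hv16
    exact le_of_mul_le_mul_right h hw
  have hquad : y ≤ 1 + y ^ 2 * s := by
    have h1 : (c * c) ^ 2 * (v * t) ≤ w * ((c * c) ^ 2 * t + c * c * v * v) := by
      have h2 := mul_le_mul_of_nonneg_right hb (by positivity : 0 ≤ v * t)
      have e : w * ((c * c) ^ 2 / v + c * c * v / t) * (v * t) =
          w * ((c * c) ^ 2 * t + c * c * v * v) := by
        field_simp
      rw [e] at h2
      exact h2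
    have h3 : (c ^ 4 * w * t) * y ≤ (c ^ 4 * w * t) * (1 + y ^ 2 * s) := by
      have e1 : (c * c) ^ 2 * (v * t) = (c ^ 4 * w * t) * y := by rw [hvy]; ring
      have e2 : w * ((c * c) ^ 2 * t + c * c * v * v) = (c ^ 4 * w * t) * (1 + y ^ 2 * s) := by
        rw [hvy]
        have : c * c * (y * w) * (y * w) = c ^ 4 * y ^ 2 * K₀ ^ 2 := by
          rw [hwK]; ring
        rw [this, hs]
        ring
      rw [e1, e2] at h1
      exact h1
    exact le_of_mul_le_mul_left h3 (by positivity)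
  have hy2 : y ≤ 1 + 2 * s := by
    by_contra hcon
    push Not at hcon
    have h1 : 0 ≤ s * ((y - (1 + 2 * s)) * (16 - y)) :=
      mul_nonneg hs0.le (mul_nonneg (by linarith) (by linarith))
    have h2 : 0 < (y - (1 + 2 * s)) * (1 - 17 * s - 2 * s ^ 2) :=
      mul_pos (by linarith) (by nlinarith)
    have h3 : 0 < s * (1 - 4 * s - 4 * s ^ 2) := mul_pos hs0 (by nlinarith)
    nlinarith
  have e : 2 * K₀ ^ 2 / t = 2 * s := by
    rw [hs]; field_simp
  rw [e, hvy]
  exact mul_le_mul_of_nonneg_right hy2 hw.le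

theorem cone_span [Finite M] [Finite R] (hR : Nat.card R ≤ 2 * Nat.card Rˣ) (T : Finset Rˣ)
    (hT : ∀ u ∈ T, ∀ v ∈ T, u ≠ v → IsUnit ((u : R) - v)) (C : Finset M) (h0 : C.Nonempty)
    (hC : ∀ u : Rˣ, ∀ c ∈ C, (u : R) • c ∈ C) (K : ℝ)
    (hK : ((C + C).card : ℝ) ≤ K * C.card) (hTK : 26 * K ^ 2 ≤ T.card) :
    (Nat.card (Submodule.span R (C : Set M)) : ℝ) ≤ (1 + 2 * K ^ 2 / T.card) * (C + C).card := by
  have hc : (0 : ℝ) < C.card := by exact_mod_cast h0.card_pos
  have hcw : (C.card : ℝ) ≤ (C + C).card := by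
    exact_mod_cast Finset.card_le_card_add_right h0
  obtain ⟨K₀, hwK⟩ : ∃ K₀ : ℝ, ((C + C).card : ℝ) = K₀ * C.card :=
    ⟨(C + C).card / C.card, by field_simp⟩
  have hK₀1 : 1 ≤ K₀ := by
    have : 1 * (C.card : ℝ) ≤ K₀ * C.card := by linarith
    exact le_of_mul_le_mul_right this hc
  have hK₀K : K₀ ≤ K := by
    have : K₀ * (C.card : ℝ) ≤ K * C.card := by linarith
    exact le_of_mul_le_mul_right this hc
  have hsq : K₀ ^ 2 ≤ K ^ 2 := pow_le_pow_left₀ (by linarith) hK₀K 2
  have hTK₀ : 26 * K₀ ^ 2 ≤ T.card := by linarith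
  have ht : (0 : ℝ) < T.card := by nlinarith
  obtain ⟨V, hV1, hV2, hV3⟩ := cone hR T hT C h0 hC K₀ (le_of_eq hwK) hTK₀
  -- `C` is contained in `V`
  have hCV : ∀ x ∈ C, x ∈ V := by
    intro x hx
    by_contra hxV
    have hinj : Set.InjOn (fun u : Rˣ => (Submodule.Quotient.mk ((u : R) • x) : M ⧸ V)) T := by
      intro u hu v hv huv
      by_contra hne
      simp only [Submodule.Quotient.eq] at huv
      rw [← sub_smul] at huv
      obtain ⟨y, hy⟩ := hT u hu v hv hne
      rw [← hy] at huv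
      apply hxV
      have := V.smul_mem ((y⁻¹ : Rˣ) : R) huv
      rw [smul_smul, Units.inv_mul, one_smul] at this
      exact this
    have h1 : T.card ≤ (C.image fun c => (Submodule.Quotient.mk c : M ⧸ V)).card := by
      rw [← Finset.card_image_of_injOn hinj]
      refine Finset.card_le_card ?_
      intro q hq
      obtain ⟨u, _, rfl⟩ := Finset.mem_image.1 hq
      exact Finset.mem_image_of_mem _ (hC u x hx)
    have h2 : (T.card : ℝ) ≤ 4 * K₀ := by
      refine le_trans ?_ hV3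
      exact_mod_cast h1
    nlinarith
  set S : Submodule R M := Submodule.span R (C : Set M) with hS
  have hSV : S ≤ V := Submodule.span_le.2 fun x hx => hCV x hx
  have hv : (0 : ℝ) < Nat.card S := by
    have : 0 < Nat.card S := Nat.card_pos
    exact_mod_cast this
  have hv16 : (Nat.card S : ℝ) ≤ 16 * (C + C).card := by
    have h1 : (Nat.card S : ℝ) ≤ Nat.card V := by
      have := Set.ncard_le_ncard (show (S : Set M) ⊆ V from hSV) (Set.toFinite _)
      rw [← Nat.card_coe_set_eq, ← Nat.card_coe_set_eq] at this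
      exact_mod_cast this
    have h2 : ((sec C V 0).card : ℝ) ≤ C.card := by
      exact_mod_cast Finset.card_filter_le _ _
    calc (Nat.card S : ℝ) ≤ 16 * K₀ * (sec C V 0).card := h1.trans hV2
      _ ≤ 16 * K₀ * C.card := mul_le_mul_of_nonneg_left h2 (by linarith)
      _ = 16 * (C + C).card := by rw [hwK]; ring
  -- the Fourier estimate
  have hsec : sec C S 0 = C := by
    ext x
    rw [mem_sec, sub_zero]
    exact ⟨fun h => h.1, fun h => ⟨h, Submodule.subset_span h⟩⟩
  have hT0 : T.Nonempty := by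
    rw [← Finset.card_pos]
    exact_mod_cast ht
  have hb := sec_bound T hT0 hT C hC S 0
  rw [hsec] at hb
  have hfin := real_ineq _ _ _ _ K₀ hc hwK hv hv16 hTK₀ hb hK₀1
  refine hfin.trans (mul_le_mul_of_nonneg_right ?_ (Nat.cast_nonneg _))
  have : 2 * K₀ ^ 2 / (T.card : ℝ) ≤ 2 * K ^ 2 / T.card :=
    div_le_div_of_nonneg_right (by linarith) ht.le
  linarith

end Pool.Agent.TH136.DM
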