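import Pool.Agent.TH136.DM.Main
import Pool.Agent.TH136.DM.Span

/-! The finite statements for every decidability instance. -/

set_option autoImplicit false
open Finset
open scoped Pointwise

namespace Pool.Agent.TH136.DM

variable {R M : Type*} [Ring R] [AddCommGroup M] [Module R M]

theorem cone_span_inst [d : DecidableEq M] [Finite M] [Finite R]
    (hR : Nat.card R ≤ 2 * Nat.card Rˣ) (T : Finset Rˣ)
    (hT : ∀ u ∈ T, ∀ v ∈ T, u ≠ v → IsUnit ((u : R) - v)) (C : Finset M) (h0 : C.Nonempty)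
    (hC : ∀ u : Rˣ, ∀ c ∈ C, (u : R) • c ∈ C) (K : ℝ)
    (hK : ((C + C).card : ℝ) ≤ K * C.card) (hTK : 26 * K ^ 2 ≤ T.card) :
    (Nat.card (Submodule.span R (C : Set M)) : ℝ) ≤ (1 + 2 * K ^ 2 / T.card) * (C + C).card := by
  have hd : d = (fun a b => Classical.propDecidable (a = b)) := Subsingleton.elim _ _
  subst hd
  exact cone_span hR T hT C h0 hC K hK hTK

theorem finite_case_inst [d : DecidableEq M] [Finite M] [Finite R]
    (hR : Nat.card R ≤ 2 * Nat.card Rˣ) (T : Finset Rˣ)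
    (hT : ∀ u ∈ T, ∀ v ∈ T, u ≠ v → IsUnit ((u : R) - v)) (A : Finset M) (hA : A.Nonempty)
    (K : ℝ) (hK : ∀ u : Rˣ, ((A + A.image fun a => (u : R) • a).card : ℝ) ≤ K * A.card)
    (hTK : (3 * K) ^ 14 ≤ T.card) :
    ∃ V : Submodule R M, (Nat.card V : ℝ) ≤ 128 * K ^ 6 * A.card ∧
      ((@Finset.image M (M ⧸ V) (fun a b => Classical.propDecidable (a = b))
        (fun c => (Submodule.Quotient.mk c : M ⧸ V)) A).card : ℝ) ≤ 2 * K ^ 2 := by
  have hd : d = (fun a b => Classical.propDecidable (a = b)) := Subsingleton.elim _ _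
  subst hd
  exact finite_case hR T hT A hA K hK hTK

end Pool.Agent.TH136.DM
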