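import Pool.Agent.TH136.DM.Fields
import Pool.Agent.TH136.DM.Cut
import Pool.Agent.TH136.DM.Inst
import Mathlib.RingTheory.Finiteness.Basic
import Mathlib.RingTheory.Finiteness.Cardinality
import Mathlib.Algebra.Module.ZMod
import Mathlib.NumberTheory.ArithmeticFunction.Misc
import Mathlib.Algebra.Module.Submodule.Map

/-! The final statements for arbitrary modules. -/

set_option autoImplicit false
open Finset
open scoped Pointwise Classical

namespace Pool.Agent.TH136.DM

/-- representatives of the fibres of a map -/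
theorem reps {α β : Type*} (A : Finset α) (π : α → β) :
    ∃ S ⊆ A, S.card ≤ (A.image π).card ∧ ∀ a ∈ A, ∃ s ∈ S, π a = π s := by
  have h : ∀ q ∈ A.image π, ∃ a ∈ A, π a = q := fun q hq => Finset.mem_image.1 hq
  choose f hf1 hf2 using h
  refine ⟨(A.image π).attach.image (fun q => f q.1 q.2), ?_, ?_, ?_⟩
  · intro x hx
    obtain ⟨q, -, rfl⟩ := Finset.mem_image.1 hx
    exact hf1 _ _
  · exact Finset.card_image_le.trans (le_of_eq (Finset.card_attach))
  · intro a ha
    refine ⟨f (π a) (Finset.mem_image_of_mem _ ha),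
      Finset.mem_image.2 ⟨⟨π a, Finset.mem_image_of_mem _ ha⟩, Finset.mem_attach _ _, rfl⟩, ?_⟩
    exact (hf2 _ _).symm

variable {R M : Type*} [Ring R] [AddCommGroup M] [Module R M]

/-- the part of `A` in a submodule containing it -/
noncomputable def res (A : Finset M) (N : Submodule R M) [Fintype N] : Finset N :=
  Finset.univ.filter fun x => (x : M) ∈ A

theorem mem_res {A : Finset M} {N : Submodule R M} [Fintype N] {x : N} :
    x ∈ res A N ↔ (x : M) ∈ A := by simp [res]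

theorem res_image {A : Finset M} {N : Submodule R M} [Fintype N] (h : ∀ a ∈ A, a ∈ N) :
    (res A N).image (fun x : N => (x : M)) = A := by
  ext a
  rw [Finset.mem_image]
  constructor
  · rintro ⟨x, hx, rfl⟩
    exact mem_res.1 hx
  · intro ha
    exact ⟨⟨a, h a ha⟩, mem_res.2 ha, rfl⟩

theorem res_card {A : Finset M} {N : Submodule R M} [Fintype N] (h : ∀ a ∈ A, a ∈ N) :
    (res A N).card = A.card := by
  conv_rhs => rw [← res_image h]
  rw [Finset.card_image_of_injective _ Subtype.val_injective]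

theorem res_sum {A : Finset M} {N : Submodule R M} [Fintype N] (u : Rˣ) :
    (res A N + (res A N).image fun a => (u : R) • a).card ≤
      (A + A.image fun a => (u : R) • a).card := by
  refine Finset.card_le_card_of_injOn (fun x : N => (x : M)) ?_
    (Function.Injective.injOn Subtype.val_injective)
  intro z hz
  obtain ⟨a, ha, b, hb, rfl⟩ := Finset.mem_add.1 (Finset.mem_coe.1 hz)
  obtain ⟨c, hc, rfl⟩ := Finset.mem_image.1 hb
  exact Finset.mem_coe.2 (Finset.mem_add.2 ⟨(a : M), mem_res.1 ha, (u : R) • (c : M),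
    Finset.mem_image_of_mem _ (mem_res.1 hc), by simp⟩)

/-- transfer of the conclusions from the span to the whole module -/
theorem transfer {A : Finset M} {N : Submodule R M} [Fintype N] (h : ∀ a ∈ A, a ∈ N)
    (V : Submodule R N) (X : ℝ)
    (hX : (((res A N).image fun c => (Submodule.Quotient.mk c : N ⧸ V)).card : ℝ) ≤ X) :
    ∃ W : Submodule R M, Finite W ∧ Nat.card W = Nat.card V ∧
      (A.filter fun a => a ∈ W).card = (sec (res A N) V 0).card ∧
      ∃ S ⊆ A, (S.card : ℝ) ≤ X ∧ ∀ a ∈ A, ∃ s ∈ S, a - s ∈ W := by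
  refine ⟨V.map N.subtype, ?_, ?_, ?_, ?_⟩
  · exact Finite.of_equiv V
      (Submodule.equivMapOfInjective N.subtype (Submodule.injective_subtype N) V).toEquiv
  · exact (Nat.card_congr
      (Submodule.equivMapOfInjective N.subtype (Submodule.injective_subtype N) V).toEquiv).symm
  · symm
    refine Finset.card_bij (fun x _ => (x : M)) ?_ ?_ ?_
    · intro x hx
      rw [mem_sec, sub_zero] at hx
      refine Finset.mem_filter.2 ⟨mem_res.1 hx.1, ?_⟩
      exact Submodule.mem_map.2 ⟨x, hx.2, rfl⟩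
    · intro x _ y _ hxy
      exact Subtype.ext hxy
    · intro a ha
      obtain ⟨ha1, ha2⟩ := Finset.mem_filter.1 ha
      obtain ⟨x, hx, rfl⟩ := Submodule.mem_map.1 ha2
      refine ⟨x, ?_, rfl⟩
      rw [mem_sec, sub_zero]
      exact ⟨mem_res.2 ha1, hx⟩
  · obtain ⟨S, hSA, hSc, hS⟩ := reps (res A N) (fun c => (Submodule.Quotient.mk c : N ⧸ V))
    refine ⟨S.image (fun x : N => (x : M)), ?_, ?_, ?_⟩
    · intro x hx
      obtain ⟨y, hy, rfl⟩ := Finset.mem_image.1 hx
      exact mem_res.1 (hSA hy)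
    · refine le_trans ?_ hX
      exact_mod_cast Finset.card_image_le.trans hSc
    · intro a ha
      obtain ⟨s, hs, has⟩ := hS ⟨a, h a ha⟩ (mem_res.2 ha)
      refine ⟨(s : M), Finset.mem_image_of_mem _ hs, ?_⟩
      simp only [Submodule.Quotient.eq] at has
      exact Submodule.mem_map.2 ⟨_, has, rfl⟩

theorem finite_span [Finite R] (A : Finset M) : Finite (Submodule.span R (A : Set M)) :=
  Module.finite_of_finite R

/-- unit-invariant sets -/
theorem cone_gen [Finite R] (hR : Nat.card R ≤ 2 * Nat.card Rˣ) (T : Finset Rˣ)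
    (hT : ∀ u ∈ T, ∀ v ∈ T, u ≠ v → IsUnit ((u : R) - v)) (A : Finset M) (hA : A.Nonempty)
    (hinv : ∀ u : Rˣ, ∀ a ∈ A, (u : R) • a ∈ A) (K : ℝ)
    (hK : ((A + A).card : ℝ) ≤ K * A.card) (hTK : 26 * K ^ 2 ≤ T.card) :
    Finite (Submodule.span R (A : Set M)) ∧
      (Nat.card (Submodule.span R (A : Set M)) : ℝ) ≤
        (1 + 2 * K ^ 2 / T.card) * (A + A).card := by
  have hfin := finite_span (R := R) A
  have : Fintype (Submodule.span R (A : Set M)) := Fintype.ofFinite _
  refine ⟨hfin, ?_⟩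
  set N := Submodule.span R (A : Set M) with hN
  have hmem : ∀ a ∈ A, a ∈ N := fun a ha => Submodule.subset_span ha
  have hne : (res A N).Nonempty := by
    obtain ⟨a, ha⟩ := hA
    exact ⟨⟨a, hmem a ha⟩, mem_res.2 ha⟩
  have hinv' : ∀ u : Rˣ, ∀ c ∈ res A N, (u : R) • c ∈ res A N := by
    intro u c hc
    exact mem_res.2 (hinv u _ (mem_res.1 hc))
  have hsum0 : (res A N + res A N).card ≤ (A + A).card := by
    have h1 := res_sum (A := A) (N := N) (1 : Rˣ)
    simpa only [Units.val_one, one_smul, Finset.image_id'] using h1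
  have hsum1 : ((res A N + res A N).card : ℝ) ≤ (A + A).card := by exact_mod_cast hsum0
  have hsum : ((res A N + res A N).card : ℝ) ≤ K * (res A N).card := by
    rw [res_card hmem]
    exact hsum1.trans hK
  have h1 := cone_span_inst hR T hT (res A N) hne hinv' K hsum hTK
  have hspan : Submodule.span R ((res A N : Finset N) : Set N) = ⊤ := by
    have e : ((res A N : Finset N) : Set N) = (fun x : N => (x : M)) ⁻¹' (A : Set M) := by
      ext x
      simp [res]
    rw [e]
    exact Submodule.span_span_coe_preimage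
  rw [hspan] at h1
  have h2 : Nat.card (⊤ : Submodule R N) = Nat.card N := Nat.card_congr Submodule.topEquiv.toEquiv
  rw [h2] at h1
  exact h1.trans (mul_le_mul_of_nonneg_left hsum1 (by positivity))

/-- sets with small sums with all their unit dilates -/
theorem dil_gen [Finite R] (hR : Nat.card R ≤ 2 * Nat.card Rˣ) (T : Finset Rˣ)
    (hT : ∀ u ∈ T, ∀ v ∈ T, u ≠ v → IsUnit ((u : R) - v)) (A : Finset M) (hA : A.Nonempty)
    (K : ℝ) (hK : ∀ u : Rˣ, ((A + A.image fun a => (u : R) • a).card : ℝ) ≤ K * A.card)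
    (hTK : (3 * K) ^ 14 ≤ T.card) :
    ∃ V : Submodule R M, Finite V ∧ (Nat.card V : ℝ) ≤ 128 * K ^ 6 * A.card ∧
      ∃ S ⊆ A, (S.card : ℝ) ≤ 2 * K ^ 2 ∧ ∀ a ∈ A, ∃ s ∈ S, a - s ∈ V := by
  have hfin := finite_span (R := R) A
  have : Fintype (Submodule.span R (A : Set M)) := Fintype.ofFinite _
  set N := Submodule.span R (A : Set M) with hN
  have hmem : ∀ a ∈ A, a ∈ N := fun a ha => Submodule.subset_span ha
  have hne : (res A N).Nonempty := by
    obtain ⟨a, ha⟩ := hA
    exact ⟨⟨a, hmem a ha⟩, mem_res.2 ha⟩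
  have hsum : ∀ u : Rˣ, ((res A N + (res A N).image fun a => (u : R) • a).card : ℝ) ≤
      K * (res A N).card := by
    intro u
    rw [res_card hmem]
    refine le_trans ?_ (hK u)
    exact_mod_cast res_sum (A := A) (N := N) u
  obtain ⟨V, h1, h2⟩ := finite_case_inst hR T hT (res A N) hne K hsum hTK
  obtain ⟨W, hW1, hW2, hW3, hW4⟩ := transfer hmem V _ h2
  refine ⟨W, hW1, ?_, hW4⟩
  rw [hW2, ← res_card hmem]
  exact h1

theorem one_le_of {A : Finset M} (hA : A.Nonempty) {K : ℝ} (h : ((A + A).card : ℝ) ≤ K * A.card) :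
    1 ≤ K := by
  have hc : (0 : ℝ) < A.card := by exact_mod_cast hA.card_pos
  have h2 : (A.card : ℝ) ≤ (A + A).card := by
    exact_mod_cast Finset.card_le_card_add_right hA
  have h3 : 1 * (A.card : ℝ) ≤ K * A.card := by linarith
  exact le_of_mul_le_mul_right h3 hc

/-- vector spaces over a finite field, with a generating set of bounded dilates -/
theorem field_gen {F : Type*} [Field F] [Finite F] [Module F M] (A : Finset M) (hA : A.Nonempty)
    (K : ℝ) (J : ℕ) (Λ : Finset F) (hgen : ∀ E : Subfield F, (∀ x ∈ Λ, x ∈ E) → E = ⊤)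
    (hcard : Nat.card F ≤ Λ.card ^ 2 ^ J) (h1 : ((A + A).card : ℝ) ≤ K * A.card)
    (hΛ : ∀ x ∈ Λ, ((A + A.image fun a => x • a).card : ℝ) ≤ K * A.card)
    (hq : (3 * K) ^ (14 * 70 ^ J) + 1 ≤ Nat.card F) :
    ∃ L : ℝ, 1 ≤ L ∧ 3 * L ≤ (3 * K) ^ 70 ^ J ∧
      ∃ V : Submodule F M, Finite V ∧ (Nat.card V : ℝ) ≤ 128 * L ^ 6 * A.card ∧
      ∃ S ⊆ A, (S.card : ℝ) ≤ 2 * L ^ 2 ∧ ∀ a ∈ A, ∃ s ∈ S, a - s ∈ V := by
  have : Fintype F := Fintype.ofFinite _
  have hK1 : 1 ≤ K := one_le_of hA h1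
  have hsub : (Λ : Set F) ⊆ {x : F | G A K x} := fun x hx => hΛ x hx
  obtain ⟨L, hL, hall⟩ := all_dilates (F := F) hA J K hK1 h1
    (fun E hE => hgen E fun x hx => hE (hsub hx))
    (by
      refine le_trans hcard (Nat.pow_le_pow_left ?_ _)
      rw [← Set.ncard_coe_finset]
      exact Set.ncard_le_ncard hsub (Set.toFinite _))
  have hL1 : 1 ≤ L := by
    refine one_le_of hA ?_
    have := hall 1
    unfold G at this
    simpa using this
  have hcu : Fintype.card Fˣ = Nat.card F - 1 := by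
    rw [Fintype.card_units, Nat.card_eq_fintype_card]
  have hF2 : 2 ≤ Nat.card F := by
    rw [Nat.card_eq_fintype_card]
    exact Fintype.one_lt_card
  refine ⟨L, hL1, hL, dil_gen (R := F) (by
      rw [Nat.card_eq_fintype_card (α := Fˣ), hcu]
      omega) (Finset.univ : Finset Fˣ) (by
      intro u _ v _ huv
      refine IsUnit.mk0 _ (sub_ne_zero.2 fun h => huv (Units.ext h))) A hA L
      (fun u => hall (u : F)) (by
        have h2 : (3 * L) ^ 14 ≤ ((3 * K) ^ 70 ^ J) ^ 14 :=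
          pow_le_pow_left₀ (by linarith) hL 14
        rw [← pow_mul, mul_comm (70 ^ J) 14] at h2
        rw [Finset.card_univ, hcu]
        have h3 : ((Nat.card F - 1 : ℕ) : ℝ) = (Nat.card F : ℝ) - 1 := by
          rw [Nat.cast_sub (by omega)]
          simp
        rw [h3]
        linarith)⟩

/-- abelian groups of exponent `N` all of whose prime factors are large -/
theorem zmod_gen {Γ : Type*} [AddCommGroup Γ] (N : ℕ) (hN : 2 ≤ N) (hΓ : ∀ x : Γ, N • x = 0)
    (hφ : N ≤ 2 * Nat.totient N) (A : Finset Γ) (hA : A.Nonempty) (K : ℝ)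
    (hp : ∀ p : ℕ, p.Prime → p ∣ N → (3 * K) ^ 14 + 1 ≤ p)
    (hK : ∀ k : ℕ, k.Coprime N → ((A + A.image fun a => k • a).card : ℝ) ≤ K * A.card) :
    ∃ V : AddSubgroup Γ, Finite V ∧ (Nat.card V : ℝ) ≤ 128 * K ^ 6 * A.card ∧
      ∃ S ⊆ A, (S.card : ℝ) ≤ 2 * K ^ 2 ∧ ∀ a ∈ A, ∃ s ∈ S, a - s ∈ V := by
  have : NeZero N := ⟨by omega⟩
  letI : Module (ZMod N) Γ := AddCommGroup.zmodModule hΓ
  set P : ℕ := N.minFac with hP
  have hN1 : N ≠ 1 := by omega
  have hPp : P.Prime := Nat.minFac_prime hN1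
  have hPN : P ≤ N := Nat.minFac_le (by omega)
  have hco : ∀ i : ℕ, 0 < i → i < P → i.Coprime N := by
    intro i hi hiP
    rw [Nat.coprime_iff_gcd_eq_one]
    by_contra hcon
    obtain ⟨q, hq, hqd⟩ := Nat.exists_prime_and_dvd hcon
    have h1 : q ∣ i := hqd.trans (Nat.gcd_dvd_left _ _)
    have h2 : q ∣ N := hqd.trans (Nat.gcd_dvd_right _ _)
    have h3 : P ≤ q := Nat.minFac_le_of_dvd hq.two_le h2
    have h4 : q ≤ i := Nat.le_of_dvd hi h1
    omega
  set f : ℕ → (ZMod N)ˣ := fun i => if h : i.Coprime N then ZMod.unitOfCoprime i h else 1 with hf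
  have hfv : ∀ i, 0 < i → i < P → ((f i : (ZMod N)ˣ) : ZMod N) = (i : ZMod N) := by
    intro i hi hiP
    rw [hf]
    simp only
    rw [dif_pos (hco i hi hiP), ZMod.coe_unitOfCoprime]
  have hlin : ∀ i j : ℕ, 0 < i → j < P → i < j → IsUnit ((j : ZMod N) - i) := by
    intro i j hi hj hij
    rw [← Nat.cast_sub hij.le]
    rw [ZMod.isUnit_iff_coprime]
    exact hco _ (by omega) (by omega)
  have hinj : Set.InjOn f (Finset.Icc 1 (P - 1)) := by
    intro i hi j hj hij
    rw [Finset.mem_coe, Finset.mem_Icc] at hi hj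
    have h1 : (i : ZMod N) = j := by
      rw [← hfv i (by omega) (by omega), ← hfv j (by omega) (by omega), hij]
    have hi' : i < N := by omega
    have hj' : j < N := by omega
    have h2 := congrArg ZMod.val h1
    rwa [ZMod.val_natCast_of_lt hi', ZMod.val_natCast_of_lt hj'] at h2
  obtain ⟨V, hV1, hV2, S, hS1, hS2, hS3⟩ := dil_gen (R := ZMod N) (by
      rw [Nat.card_zmod, Nat.card_eq_fintype_card, ZMod.card_units_eq_totient]
      exact hφ) ((Finset.Icc 1 (P - 1)).image f) (by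
      intro u hu v hv huv
      obtain ⟨i, hi, rfl⟩ := Finset.mem_image.1 hu
      obtain ⟨j, hj, rfl⟩ := Finset.mem_image.1 hv
      rw [Finset.mem_Icc] at hi hj
      have hij : i ≠ j := fun h => huv (by rw [h])
      rw [hfv i (by omega) (by omega), hfv j (by omega) (by omega)]
      rcases lt_or_gt_of_ne hij with h | h
      · have := hlin i j (by omega) (by omega) h
        rw [← neg_sub]
        exact this.neg
      · exact hlin j i (by omega) (by omega) h) A hA K (by
      intro u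
      have h1 := hK (u : ZMod N).val (ZMod.val_coe_unit_coprime u)
      have h2 : (A.image fun a => (u : ZMod N) • a) = A.image fun a => (u : ZMod N).val • a := by
        refine Finset.image_congr fun a _ => ?_
        conv_lhs => rw [← ZMod.natCast_zmod_val (u : ZMod N)]
        rw [Nat.cast_smul_eq_nsmul]
      rw [h2]
      exact h1) (by
      rw [Finset.card_image_of_injOn hinj, Nat.card_Icc]
      have h1 := hp P hPp (Nat.minFac_dvd N)
      have h2 : ((P - 1 + 1 - 1 : ℕ) : ℝ) = (P : ℝ) - 1 := by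
        have : P - 1 + 1 - 1 = P - 1 := by omega
        rw [this, Nat.cast_sub hPp.one_le]
        simp
      rw [h2]
      linarith)
  exact ⟨V.toAddSubgroup, hV1, hV2, S, hS1, hS2, hS3⟩

/-- the final form for vector spaces over a finite field -/
theorem field_official {F : Type*} [Field F] [Finite F] [Module F M] (A : Finset M)
    (hA : A.Nonempty) (K : ℝ) (J : ℕ) (Λ : Finset F)
    (hgen : ∀ E : Subfield F, (∀ x ∈ Λ, x ∈ E) → E = ⊤)
    (hcard : Nat.card F ≤ Λ.card ^ 2 ^ J) (h1 : ((A + A).card : ℝ) ≤ K * A.card)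
    (hΛ : ∀ x ∈ Λ, ((A + A.image fun a => x • a).card : ℝ) ≤ K * A.card)
    (hq : (3 * K) ^ (14 * 70 ^ J) + 1 ≤ Nat.card F) :
    (∃ (V : Submodule F M) (S : Finset M), Finite V ∧
      (Nat.card V : ℝ) ≤ (3 * K) ^ (6 * 70 ^ J) * A.card ∧
      (S.card : ℝ) ≤ (3 * K) ^ (2 * 70 ^ J) ∧ ∀ a ∈ A, ∃ s ∈ S, a - s ∈ V) ∧
    ∃ (B : Set (Fin 1 → ℝ)) (ψ : (Fin 1 → ℤ) →+ M) (H : AddSubgroup M) (T : Finset M),
      Convex ℝ B ∧ IsCompact B ∧ (interior B).Nonempty ∧ (∀ x ∈ B, -x ∈ B) ∧ Finite H ∧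
      {x : Fin 1 → ℤ | (fun i => (x i : ℝ)) ∈ B}.ncard * Nat.card H ≤ A.card ∧
      (T.card : ℝ) ≤ (3 * K) ^ (8 * 70 ^ J) ∧
      ∀ a ∈ A, ∃ t ∈ T, ∃ x : Fin 1 → ℤ, (fun i => (x i : ℝ)) ∈ B ∧
        ∃ h ∈ H, a = t + ψ x + h := by
  obtain ⟨L, hL1, hL, V, hVf, hVc, S, -, hSc, hcov⟩ := field_gen A hA K J Λ hgen hcard h1 hΛ hq
  have hpow : ∀ n : ℕ, (3 * L) ^ n ≤ (3 * K) ^ (n * 70 ^ J) := by
    intro n
    rw [mul_comm n, pow_mul]
    exact pow_le_pow_left₀ (by linarith) hL n
  constructor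
  · refine ⟨V, S, hVf, hVc.trans ?_, hSc.trans ?_, hcov⟩
    · refine mul_le_mul_of_nonneg_right (le_trans ?_ (hpow 6)) (Nat.cast_nonneg _)
      have : 0 ≤ L ^ 6 := by positivity
      calc 128 * L ^ 6 ≤ 729 * L ^ 6 := by linarith
        _ = (3 * L) ^ 6 := by ring
    · refine le_trans ?_ (hpow 2)
      have : 0 ≤ L ^ 2 := by positivity
      calc 2 * L ^ 2 ≤ 9 * L ^ 2 := by linarith
        _ = (3 * L) ^ 2 := by ring
  · have hD : 1 ≤ 128 * L ^ 6 := by
      have : 1 ≤ L ^ 6 := one_le_pow₀ hL1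
      linarith
    have hVf' : Finite V.toAddSubgroup := hVf
    obtain ⟨B, ψ, H, T, h1, h2, h3, h4, h5, h6, h7, h8⟩ := official A hA (2 * L ^ 2)
      (128 * L ^ 6) (by positivity) hD V.toAddSubgroup S hVc hSc hcov
    refine ⟨B, ψ, H, T, h1, h2, h3, h4, h5, h6, h7.trans (le_trans ?_ (hpow 8)), h8⟩
    have : 0 ≤ L ^ 8 := by positivity
    calc 3 * (2 * L ^ 2) * (128 * L ^ 6) = 768 * L ^ 8 := by ring
      _ ≤ 6561 * L ^ 8 := by linarith
      _ = (3 * L) ^ 8 := by ring

end Pool.Agent.TH136.DM
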