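import Mathlib.Analysis.Fourier.FiniteAbelian.PontryaginDuality
import Mathlib.Algebra.Module.Basic
import Mathlib.Algebra.Group.Pointwise.Finset.Basic
import Mathlib.Algebra.Order.Chebyshev
import Mathlib.Tactic

/-! Sumsets of a set with a dilation-invariant set: the Fourier estimate. -/

set_option autoImplicit false
open Finset
open scoped Pointwise ComplexConjugate

namespace Pool.Agent.TH136.DM

variable {V : Type*} [AddCommGroup V] [Fintype V] [DecidableEq V]

/-- Fourier transform of a function on a finite abelian group. -/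
noncomputable def ft (F : V → ℂ) (ψ : AddChar V ℂ) : ℂ := ∑ x, F x * ψ x

theorem parseval (F : V → ℂ) :
    ∑ ψ : AddChar V ℂ, ‖ft F ψ‖ ^ 2 = (Fintype.card V : ℝ) * ∑ x, ‖F x‖ ^ 2 := by
  have h : (∑ ψ : AddChar V ℂ, ((‖ft F ψ‖ ^ 2 : ℝ) : ℂ)) =
      (Fintype.card V : ℂ) * ∑ x, ((‖F x‖ ^ 2 : ℝ) : ℂ) := by
    have h1 : ∀ z : ℂ, ((‖z‖ ^ 2 : ℝ) : ℂ) = z * conj z := by
      intro z
      rw [Complex.mul_conj, Complex.normSq_eq_norm_sq]
    have h2 : ∀ ψ : AddChar V ℂ, ((‖ft F ψ‖ ^ 2 : ℝ) : ℂ) =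
        ∑ x, ∑ y, F x * conj (F y) * ψ (x - y) := by
      intro ψ
      rw [h1, ft, map_sum, Finset.sum_mul_sum]
      refine Finset.sum_congr rfl fun x _ => Finset.sum_congr rfl fun y _ => ?_
      rw [map_mul, sub_eq_add_neg, AddChar.map_add_eq_mul, AddChar.map_neg_eq_conj]
      ring
    rw [Finset.sum_congr rfl fun ψ _ => h2 ψ, Finset.sum_comm]
    rw [Finset.mul_sum]
    refine Finset.sum_congr rfl fun x _ => ?_
    rw [Finset.sum_comm, Finset.sum_eq_single x]
    · rw [← Finset.mul_sum, AddChar.sum_apply_eq_ite, h1]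
      simp
      ring
    · intro y _ hy
      rw [← Finset.mul_sum, AddChar.sum_apply_eq_ite, if_neg (sub_ne_zero.2 (Ne.symm hy)), mul_zero]
    · intro hx
      exact absurd (Finset.mem_univ x) hx
  exact_mod_cast h

/-- the indicator function -/
noncomputable def ind (X : Finset V) (x : V) : ℂ := if x ∈ X then 1 else 0

theorem ft_ind (X : Finset V) (ψ : AddChar V ℂ) : ft (ind X) ψ = ∑ x ∈ X, ψ x := by
  simp [ft, ind, Finset.sum_ite_mem, ite_mul]

theorem parseval_ind (X : Finset V) :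
    ∑ ψ : AddChar V ℂ, ‖ft (ind X) ψ‖ ^ 2 = (Fintype.card V : ℝ) * X.card := by
  rw [parseval]
  congr 1
  have : ∀ x, ‖ind X x‖ ^ 2 = if x ∈ X then (1 : ℝ) else 0 := by
    intro x
    unfold ind
    split_ifs <;> simp
  simp_rw [this]
  simp

/-- number of representations -/
def rep (S B : Finset V) (x : V) : ℕ := ((S ×ˢ B).filter fun p => p.1 + p.2 = x).card

theorem ft_rep (S B : Finset V) (ψ : AddChar V ℂ) :
    ft (fun x => (rep S B x : ℂ)) ψ = ft (ind S) ψ * ft (ind B) ψ := by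
  rw [ft_ind, ft_ind, Finset.sum_mul_sum, ← Finset.sum_product']
  unfold ft
  have h : ∀ x, (rep S B x : ℂ) * ψ x =
      ∑ p ∈ (S ×ˢ B).filter (fun p => p.1 + p.2 = x), ψ p.1 * ψ p.2 := by
    intro x
    rw [rep, ← nsmul_eq_mul, ← Finset.sum_const]
    refine Finset.sum_congr rfl fun p hp => ?_
    rw [← AddChar.map_add_eq_mul, (Finset.mem_filter.1 hp).2]
  simp_rw [h]
  rw [← Finset.sum_fiberwise (S ×ˢ B) (fun p => p.1 + p.2)]

theorem card_sq_le (S B : Finset V) :
    ((S.card : ℝ) * B.card) ^ 2 ≤ (S + B).card * ∑ x, (rep S B x : ℝ) ^ 2 := by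
  have h1 : (S.card : ℝ) * B.card = ∑ x ∈ S + B, (rep S B x : ℝ) := by
    have : (S ×ˢ B).card = ∑ x ∈ S + B, rep S B x :=
      Finset.card_eq_sum_card_fiberwise (f := fun p : V × V => p.1 + p.2) (fun p hp => by
        have := Finset.mem_product.1 hp
        exact Finset.add_mem_add this.1 this.2)
    rw [Finset.card_product] at this
    exact_mod_cast this
  rw [h1]
  refine (sq_sum_le_card_mul_sum_sq).trans ?_
  refine mul_le_mul_of_nonneg_left ?_ (Nat.cast_nonneg _)
  exact Finset.sum_le_sum_of_subset_of_nonneg (Finset.subset_univ _) (fun _ _ _ => sq_nonneg _)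

variable {R : Type*} [Ring R] [Module R V]

/-- composition of a character with multiplication by a scalar -/
def dil (ψ : AddChar V ℂ) (u : R) : AddChar V ℂ :=
  ψ.compAddMonoidHom (DistribSMul.toAddMonoidHom V u)

theorem dil_apply (ψ : AddChar V ℂ) (u : R) (x : V) : dil ψ u x = ψ (u • x) := rfl

theorem orbit_bound (T : Finset Rˣ)
    (hT : ∀ u ∈ T, ∀ v ∈ T, u ≠ v → IsUnit ((u : R) - v)) (B : Finset V)
    (hB : ∀ u ∈ T, ∀ b ∈ B, (u : R) • b ∈ B) (ψ : AddChar V ℂ) (hψ : ψ ≠ 0) :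
    (T.card : ℝ) * ‖ft (ind B) ψ‖ ^ 2 ≤ (Fintype.card V : ℝ) * B.card := by
  classical
  have hinv : ∀ u ∈ T, ft (ind B) (dil ψ (u : R)) = ft (ind B) ψ := by
    intro u hu
    rw [ft_ind, ft_ind]
    refine Finset.sum_bij (fun b _ => (u : R) • b) (fun b hb => hB u hu b hb) ?_ ?_ ?_
    · intro a _ b _ hab
      have : (u⁻¹ : Rˣ) • (u • a) = (u⁻¹ : Rˣ) • (u • b) := by
        rw [Units.smul_def u a, Units.smul_def u b, hab]
      simpa using this
    · have hmap : B.image (fun b => (u : R) • b) = B := by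
        apply Finset.eq_of_subset_of_card_le
        · intro x hx
          obtain ⟨b, hb, rfl⟩ := Finset.mem_image.1 hx
          exact hB u hu b hb
        · rw [Finset.card_image_of_injective]
          intro a b hab
          have hab' : (u : R) • a = (u : R) • b := hab
          have : (u⁻¹ : Rˣ) • (u • a) = (u⁻¹ : Rˣ) • (u • b) := by
            rw [Units.smul_def u a, Units.smul_def u b, hab']
          simpa using this
      intro b hb
      rw [← hmap] at hb
      obtain ⟨a, ha, h⟩ := Finset.mem_image.1 hb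
      exact ⟨a, ha, h⟩
    · intro b _
      rfl
  have hinj : Set.InjOn (fun u : Rˣ => dil ψ (u : R)) T := by
    intro u hu v hv huv
    by_contra hne
    have hun := hT u hu v hv hne
    apply hψ
    rw [AddChar.eq_zero_iff]
    intro x
    obtain ⟨w, hw⟩ := hun
    have h1 : dil ψ (u : R) ((w⁻¹ : Rˣ) • x) = dil ψ (v : R) ((w⁻¹ : Rˣ) • x) := by
      have := congrArg (fun φ : AddChar V ℂ => φ ((w⁻¹ : Rˣ) • x)) huv
      exact this
    rw [dil_apply, dil_apply] at h1
    have h2 : x = (u : R) • ((w⁻¹ : Rˣ) • x) - (v : R) • ((w⁻¹ : Rˣ) • x) := by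
      rw [← sub_smul, ← hw, Units.smul_def, smul_smul]
      simp
    rw [h2, AddChar.map_sub_eq_div, h1]
    refine div_self ?_
    exact (AddChar.val_isUnit _ _).ne_zero
  calc (T.card : ℝ) * ‖ft (ind B) ψ‖ ^ 2
      = ∑ u ∈ T, ‖ft (ind B) (dil ψ (u : R))‖ ^ 2 := by
        rw [Finset.sum_congr rfl fun u hu => by rw [hinv u hu]]
        rw [Finset.sum_const, nsmul_eq_mul]
    _ = ∑ φ ∈ T.image (fun u : Rˣ => dil ψ (u : R)), ‖ft (ind B) φ‖ ^ 2 := by
        rw [Finset.sum_image hinj]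
    _ ≤ ∑ φ : AddChar V ℂ, ‖ft (ind B) φ‖ ^ 2 :=
        Finset.sum_le_sum_of_subset_of_nonneg (Finset.subset_univ _) (fun _ _ _ => sq_nonneg _)
    _ = _ := parseval_ind B

/-- The sumset of a set with a dilation-invariant set. -/
theorem sumset_bound (T : Finset Rˣ) (hT0 : T.Nonempty)
    (hT : ∀ u ∈ T, ∀ v ∈ T, u ≠ v → IsUnit ((u : R) - v)) (S B : Finset V)
    (hB : ∀ u ∈ T, ∀ b ∈ B, (u : R) • b ∈ B) :
    ((S.card : ℝ) * B.card) ^ 2 ≤ (S + B).card *
      (((S.card : ℝ) * B.card) ^ 2 / Fintype.card V +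
        S.card * B.card * Fintype.card V / T.card) := by
  classical
  have hV : (0 : ℝ) < Fintype.card V := by
    have : 0 < Fintype.card V := Fintype.card_pos
    exact_mod_cast this
  have hTc : (0 : ℝ) < T.card := by exact_mod_cast hT0.card_pos
  refine (card_sq_le S B).trans ?_
  refine mul_le_mul_of_nonneg_left ?_ (Nat.cast_nonneg _)
  have h1 : (Fintype.card V : ℝ) * ∑ x, (rep S B x : ℝ) ^ 2 =
      ∑ ψ : AddChar V ℂ, ‖ft (ind S) ψ‖ ^ 2 * ‖ft (ind B) ψ‖ ^ 2 := by
    have := parseval (fun x => (rep S B x : ℂ))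
    simp_rw [ft_rep, norm_mul, mul_pow] at this
    rw [this]
    simp
  have h2 : ∑ ψ : AddChar V ℂ, ‖ft (ind S) ψ‖ ^ 2 * ‖ft (ind B) ψ‖ ^ 2 ≤
      ((S.card : ℝ) * B.card) ^ 2 +
        ∑ ψ : AddChar V ℂ, ‖ft (ind S) ψ‖ ^ 2 * ((Fintype.card V : ℝ) * B.card / T.card) := by
    rw [← Finset.add_sum_erase _ _ (Finset.mem_univ (0 : AddChar V ℂ))]
    refine add_le_add ?_ ?_
    · rw [ft_ind, ft_ind]
      simp
      rw [mul_pow]
    · refine (Finset.sum_le_sum fun ψ hψ => ?_).trans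
        (Finset.sum_le_sum_of_subset_of_nonneg (Finset.erase_subset _ _) ?_)
      · refine mul_le_mul_of_nonneg_left ?_ (sq_nonneg _)
        rw [le_div_iff₀ hTc, mul_comm]
        exact orbit_bound T hT B hB ψ (Finset.ne_of_mem_erase hψ)
      · intro ψ _ _
        positivity
  rw [← Finset.sum_mul, parseval_ind] at h2
  have h3 : (Fintype.card V : ℝ) * ∑ x, (rep S B x : ℝ) ^ 2 ≤
      (Fintype.card V : ℝ) * (((S.card : ℝ) * B.card) ^ 2 / Fintype.card V +
        S.card * B.card * Fintype.card V / T.card) := by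
    rw [h1]
    refine h2.trans (le_of_eq ?_)
    field_simp
  exact le_of_mul_le_mul_left h3 hV

end Pool.Agent.TH136.DM
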