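import Pool.Agent.TH136.DM.Popular
import Pool.Agent.TH136.DM.Span

/-! Polynomial Freiman-Ruzsa theorem for sets with small sums with all their unit dilates. -/

set_option autoImplicit false
open Finset
open scoped Pointwise Classical

namespace Pool.Agent.TH136.DM

variable {R M : Type*} [Ring R] [AddCommGroup M] [Module R M]

theorem finite_case [Finite M] [Finite R] (hR : Nat.card R ≤ 2 * Nat.card Rˣ) (T : Finset Rˣ)
    (hT : ∀ u ∈ T, ∀ v ∈ T, u ≠ v → IsUnit ((u : R) - v)) (A : Finset M) (hA : A.Nonempty)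
    (K : ℝ) (hK : ∀ u : Rˣ, ((A + A.image fun a => (u : R) • a).card : ℝ) ≤ K * A.card)
    (hTK : (3 * K) ^ 14 ≤ T.card) :
    ∃ V : Submodule R M, (Nat.card V : ℝ) ≤ 128 * K ^ 6 * A.card ∧
      ((A.image fun c => (Submodule.Quotient.mk c : M ⧸ V)).card : ℝ) ≤ 2 * K ^ 2 := by
  have hfM : Fintype M := Fintype.ofFinite _
  have hfR : Fintype R := Fintype.ofFinite _
  have hfU : Fintype Rˣ := Fintype.ofFinite _
  have hc : (0 : ℝ) < A.card := by exact_mod_cast hA.card_pos
  have hK1 : 1 ≤ K := by
    have h1 := hK 1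
    have h2 : (A.card : ℝ) ≤ (A + A.image fun a => ((1 : Rˣ) : R) • a).card := by
      have : A.Nonempty := hA
      exact_mod_cast Finset.card_le_card_add_right (by simpa using this)
    have h3 : 1 * (A.card : ℝ) ≤ K * A.card := by linarith
    exact le_of_mul_le_mul_right h3 hc
  have hK0 : 0 < K := by linarith
  have hA2 : ((A + A).card : ℝ) ≤ K * A.card := by
    have := hK 1
    simpa using this
  set U : ℝ := (Fintype.card Rˣ : ℝ) with hU
  have hU0 : 0 < U := by
    have : 0 < Fintype.card Rˣ := Fintype.card_pos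
    rw [hU]
    exact_mod_cast this
  -- the sum over the orbit
  set W : M → ℝ := fun x => ∑ u : Rˣ, (rd A ((u : R) • x) : ℝ) with hW
  have hWinv : ∀ (v : Rˣ) (x : M), W ((v : R) • x) = W x := by
    intro v x
    rw [hW]
    simp only
    refine Fintype.sum_equiv (Equiv.mulRight v) _ _ fun u => ?_
    simp [smul_smul]
  have hW0 : ∀ x, 0 ≤ W x := fun x => Finset.sum_nonneg fun u _ => Nat.cast_nonneg _
  have hWle : ∀ x, W x ≤ U * A.card := by
    intro x
    rw [hW]
    simp only
    calc ∑ u : Rˣ, (rd A ((u : R) • x) : ℝ) ≤ ∑ _u : Rˣ, (A.card : ℝ) :=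
          Finset.sum_le_sum fun u _ => by exact_mod_cast rd_le A _
      _ = U * A.card := by rw [Finset.sum_const, Finset.card_univ, nsmul_eq_mul]
  have hWtot : U * (A.card : ℝ) ^ 3 ≤ K * ∑ x, (rd A x : ℝ) * W x := by
    have e : ∑ x, (rd A x : ℝ) * W x = ∑ u : Rˣ, ∑ x, (rd A x : ℝ) * rd A ((u : R) • x) := by
      rw [hW, Finset.sum_comm]
      refine Finset.sum_congr rfl fun x _ => ?_
      simp only
      rw [Finset.mul_sum]
    rw [e, Finset.mul_sum]
    calc U * (A.card : ℝ) ^ 3 = ∑ _u : Rˣ, (A.card : ℝ) ^ 3 := by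
          rw [Finset.sum_const, Finset.card_univ, nsmul_eq_mul]
      _ ≤ _ := Finset.sum_le_sum fun u _ => energy_lower A hA K hK0 u (hK u)
  -- the total number of pairs
  have hrdtot : ∑ x, (rd A x : ℝ) = (A.card : ℝ) ^ 2 := by
    have := sum_pairs A (fun _ => (1 : ℝ))
    simp only [Finset.sum_const, nsmul_eq_mul, mul_one] at this
    rw [← this, sq]
  -- the popular directions
  set C : Finset M := Finset.univ.filter fun x => U * A.card ≤ 2 * K * W x with hC
  have hCinv : ∀ u : Rˣ, ∀ c ∈ C, (u : R) • c ∈ C := by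
    intro u c hcC
    refine Finset.mem_filter.2 ⟨Finset.mem_univ _, ?_⟩
    rw [hWinv]
    exact (Finset.mem_filter.1 hcC).2
  have hC0 : (0 : M) ∈ C := by
    refine Finset.mem_filter.2 ⟨Finset.mem_univ _, ?_⟩
    have h1 : W 0 = U * A.card := by
      rw [hW]
      simp only [smul_zero]
      have : rd A (0 : M) = A.card := by
        rw [rd]
        simp
      rw [this, Finset.sum_const, Finset.card_univ, nsmul_eq_mul]
    rw [h1]
    have : 0 < U * A.card := by positivity
    nlinarith
  set P : ℝ := ∑ x ∈ C, (rd A x : ℝ) with hP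
  have hPle : P ≤ (A.card : ℝ) ^ 2 := by
    rw [← hrdtot]
    exact Finset.sum_le_sum_of_subset_of_nonneg (Finset.subset_univ _)
      (fun _ _ _ => Nat.cast_nonneg _)
  have hPge : (A.card : ℝ) ^ 2 ≤ 2 * K * P := by
    have h1 : ∑ x, (rd A x : ℝ) * W x ≤ U * A.card * P + ∑ x, (rd A x : ℝ) * (U * A.card / (2 * K)) := by
      rw [← Finset.sum_filter_add_sum_filter_not Finset.univ
        (fun x => U * A.card ≤ 2 * K * W x) (fun x => (rd A x : ℝ) * W x)]
      refine add_le_add ?_ ?_
      · rw [hP, Finset.mul_sum]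
        refine Finset.sum_le_sum fun x _ => ?_
        have := hWle x
        have h0 : (0 : ℝ) ≤ rd A x := Nat.cast_nonneg _
        nlinarith
      · refine (Finset.sum_le_sum fun x hx => ?_).trans
          (Finset.sum_le_sum_of_subset_of_nonneg (Finset.filter_subset _ _) ?_)
        · have hx' := (Finset.mem_filter.1 hx).2
          push Not at hx'
          refine mul_le_mul_of_nonneg_left ?_ (Nat.cast_nonneg _)
          rw [le_div_iff₀ (by positivity)]
          linarith
        · intro x _ _
          positivity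
    rw [← Finset.sum_mul, hrdtot] at h1
    have h2 : U * (A.card : ℝ) ^ 3 ≤ K * (U * A.card * P + (A.card : ℝ) ^ 2 * (U * A.card / (2 * K))) :=
      hWtot.trans (mul_le_mul_of_nonneg_left h1 hK0.le)
    have h3 : K * (U * A.card * P + (A.card : ℝ) ^ 2 * (U * A.card / (2 * K))) =
        K * (U * A.card * P) + U * (A.card : ℝ) ^ 3 / 2 := by
      field_simp
    rw [h3] at h2
    have h4 : (U * A.card) * (A.card : ℝ) ^ 2 ≤ (U * A.card) * (2 * K * P) := by nlinarith
    exact le_of_mul_le_mul_left h4 (by positivity)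
  -- size of `C`
  have hCle : (C.card : ℝ) ≤ 2 * K * A.card := by
    have h1 : ∑ x ∈ C, W x = U * P := by
      rw [hW]
      simp only
      rw [Finset.sum_comm]
      have : ∀ u : Rˣ, ∑ x ∈ C, (rd A ((u : R) • x) : ℝ) = P := by
        intro u
        rw [hP]
        refine Finset.sum_bij (fun x _ => (u : R) • x) (fun x hx => hCinv u x hx) ?_ ?_ ?_
        · intro a _ b _ hab
          have : (u⁻¹ : Rˣ) • (u • a) = (u⁻¹ : Rˣ) • (u • b) := by
            rw [Units.smul_def u a, Units.smul_def u b, hab]
          simpa using this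
        · intro b hb
          refine ⟨((u⁻¹ : Rˣ) : R) • b, hCinv u⁻¹ b hb, ?_⟩
          simp [smul_smul]
        · intro x _
          rfl
      simp_rw [this]
      rw [Finset.sum_const, Finset.card_univ, nsmul_eq_mul]
    have h2 : (C.card : ℝ) * (U * A.card) ≤ 2 * K * ∑ x ∈ C, W x := by
      rw [Finset.mul_sum, ← nsmul_eq_mul, ← Finset.sum_const]
      exact Finset.sum_le_sum fun x hx => (Finset.mem_filter.1 hx).2
    rw [h1] at h2
    have h3 : (U * A.card) * (C.card : ℝ) ≤ (U * A.card) * (2 * K * A.card) := by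
      have := mul_le_mul_of_nonneg_left hPle (by positivity : 0 ≤ 2 * K * U)
      nlinarith
    exact le_of_mul_le_mul_left h3 (by positivity)
  have hCge : (A.card : ℝ) ≤ 2 * K * C.card := by
    have h1 : P ≤ A.card * C.card := by
      rw [hP, mul_comm, ← nsmul_eq_mul, ← Finset.sum_const]
      exact Finset.sum_le_sum fun x _ => by exact_mod_cast rd_le A x
    have h2 : (A.card : ℝ) * A.card ≤ A.card * (2 * K * C.card) := by
      have := mul_le_mul_of_nonneg_left h1 (by positivity : 0 ≤ 2 * K)
      nlinarith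
    exact le_of_mul_le_mul_left h2 hc
  -- many dilates of a popular direction are differences
  have hmany : ∀ x ∈ C, U ≤ 2 * K * ((Finset.univ.filter fun u : Rˣ => (u : R) • x ∈ A - A).card) := by
    intro x hx
    have h1 : W x ≤ A.card * ((Finset.univ.filter fun u : Rˣ => (u : R) • x ∈ A - A).card : ℝ) := by
      rw [hW]
      simp only
      rw [mul_comm, ← nsmul_eq_mul, ← Finset.sum_const, Finset.sum_filter]
      refine Finset.sum_le_sum fun u _ => ?_
      split_ifs with h
      · exact_mod_cast rd_le A _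
      · have : rd A ((u : R) • x) = 0 := by
          by_contra hne
          exact h (rd_pos hne)
        rw [this]
        simp
    have h2 := (Finset.mem_filter.1 hx).2
    have h3 : (A.card : ℝ) * U ≤ A.card * (2 * K *
        ((Finset.univ.filter fun u : Rˣ => (u : R) • x ∈ A - A).card)) := by
      have := mul_le_mul_of_nonneg_left h1 (by positivity : 0 ≤ 2 * K)
      nlinarith
    exact le_of_mul_le_mul_left h3 hc
  -- the sumset of `C`
  have hCC : ((C + C).card : ℝ) ≤ 64 * K ^ 6 * A.card := by
    set D : Rˣ → Finset M := fun u => (A - A).image fun a => ((u⁻¹ : Rˣ) : R) • a with hD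
    have h1 : ∀ z ∈ C + C, U ^ 2 ≤ 4 * K ^ 2 *
        ((Finset.univ.filter fun p : Rˣ × Rˣ => z ∈ D p.1 + D p.2).card : ℝ) := by
      intro z hz
      obtain ⟨x, hx, y, hy, rfl⟩ := Finset.mem_add.1 hz
      have hx' := hmany x hx
      have hy' := hmany y hy
      have hsub : ((Finset.univ.filter fun u : Rˣ => (u : R) • x ∈ A - A) ×ˢ
          (Finset.univ.filter fun u : Rˣ => (u : R) • y ∈ A - A)) ⊆
          (Finset.univ.filter fun p : Rˣ × Rˣ => x + y ∈ D p.1 + D p.2) := by
        rintro ⟨u, v⟩ huv
        rw [Finset.mem_product, Finset.mem_filter, Finset.mem_filter] at huv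
        refine Finset.mem_filter.2 ⟨Finset.mem_univ _, Finset.add_mem_add ?_ ?_⟩
        · exact Finset.mem_image.2 ⟨(u : R) • x, huv.1.2, by simp [smul_smul]⟩
        · exact Finset.mem_image.2 ⟨(v : R) • y, huv.2.2, by simp [smul_smul]⟩
      have hcard := Finset.card_le_card hsub
      rw [Finset.card_product] at hcard
      have hcard' : ((Finset.univ.filter fun u : Rˣ => (u : R) • x ∈ A - A).card : ℝ) *
          (Finset.univ.filter fun u : Rˣ => (u : R) • y ∈ A - A).card ≤
          ((Finset.univ.filter fun p : Rˣ × Rˣ => x + y ∈ D p.1 + D p.2).card : ℝ) := by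
        exact_mod_cast hcard
      have h2 := mul_le_mul hx' hy' hU0.le (by positivity)
      nlinarith
    have h2 : ((C + C).card : ℝ) * U ^ 2 ≤ 4 * K ^ 2 * ∑ p : Rˣ × Rˣ, ((D p.1 + D p.2).card : ℝ) := by
      have h3 : ((C + C).card : ℝ) * U ^ 2 ≤ ∑ z ∈ C + C, 4 * K ^ 2 *
        ((Finset.univ.filter fun p : Rˣ × Rˣ => z ∈ D p.1 + D p.2).card : ℝ) := by
        rw [← nsmul_eq_mul, ← Finset.sum_const]
        exact Finset.sum_le_sum fun z hz => h1 z hz
      refine h3.trans ?_
      rw [← Finset.mul_sum]
      refine mul_le_mul_of_nonneg_left ?_ (by positivity)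
      have h4 : ∀ z : M, ((Finset.univ.filter fun p : Rˣ × Rˣ => z ∈ D p.1 + D p.2).card : ℝ) =
          ∑ p : Rˣ × Rˣ, if z ∈ D p.1 + D p.2 then (1 : ℝ) else 0 := by
        intro z
        rw [← Finset.sum_filter, Finset.sum_const, nsmul_eq_mul, mul_one]
      simp_rw [h4]
      rw [Finset.sum_comm]
      refine Finset.sum_le_sum fun p _ => ?_
      rw [← Finset.sum_filter, Finset.sum_const, nsmul_eq_mul, mul_one]
      have : ((C + C).filter fun z => z ∈ D p.1 + D p.2) ⊆ D p.1 + D p.2 := by
        intro z hz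
        exact (Finset.mem_filter.1 hz).2
      exact_mod_cast Finset.card_le_card this
    have h5 : ∑ p : Rˣ × Rˣ, ((D p.1 + D p.2).card : ℝ) ≤ U ^ 2 * (16 * K ^ 4 * A.card) := by
      calc ∑ p : Rˣ × Rˣ, ((D p.1 + D p.2).card : ℝ) ≤ ∑ _p : Rˣ × Rˣ, (16 * K ^ 4 * A.card : ℝ) :=
            Finset.sum_le_sum fun p _ => dilate_diff A hA K hK p.1⁻¹ p.2⁻¹
        _ = U ^ 2 * (16 * K ^ 4 * A.card) := by
            rw [Finset.sum_const, Finset.card_univ, nsmul_eq_mul, Fintype.card_prod]
            push_cast
            rw [hU]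
            ring
    have h6 : U ^ 2 * ((C + C).card : ℝ) ≤ U ^ 2 * (64 * K ^ 6 * A.card) := by
      have := mul_le_mul_of_nonneg_left h5 (by positivity : 0 ≤ 4 * K ^ 2)
      nlinarith
    exact le_of_mul_le_mul_left h6 (by positivity)
  -- apply the cone theorem
  set K' : ℝ := 128 * K ^ 7 with hK'
  have hCC' : ((C + C).card : ℝ) ≤ K' * C.card := by
    refine hCC.trans ?_
    have := mul_le_mul_of_nonneg_left hCge (by positivity : 0 ≤ 64 * K ^ 6)
    rw [hK']
    nlinarith
  have hTK' : 26 * K' ^ 2 ≤ T.card := by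
    refine le_trans ?_ hTK
    rw [hK', mul_pow, mul_pow, ← pow_mul]
    have : (0 : ℝ) ≤ K ^ 14 := by positivity
    norm_num
    nlinarith
  have hspan := cone_span hR T hT C ⟨0, hC0⟩ hCinv K' hCC' hTK'
  set V : Submodule R M := Submodule.span R (C : Set M) with hV
  refine ⟨V, ?_, ?_⟩
  · have hK'0 : 0 < K' := by rw [hK']; positivity
    have hT0 : (0 : ℝ) < T.card := by
      have : 0 < 26 * K' ^ 2 := by positivity
      linarith
    have h1 : 2 * K' ^ 2 / (T.card : ℝ) ≤ 1 := by
      rw [div_le_one hT0]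
      nlinarith [sq_nonneg K']
    calc (Nat.card V : ℝ) ≤ (1 + 2 * K' ^ 2 / T.card) * (C + C).card := hspan
      _ ≤ (1 + 1) * (64 * K ^ 6 * A.card) := by gcongr
      _ = 128 * K ^ 6 * A.card := by ring
  · -- the densest coset
    obtain ⟨y, hyA, hymax⟩ := Finset.exists_max_image A (fun y => (sec A V y).card) hA
    set m : ℝ := ((sec A V y).card : ℝ) with hm
    have hmall : ∀ z : M, ((sec A V z).card : ℝ) ≤ m := by
      intro z
      by_cases hz : (sec A V z).Nonempty
      · obtain ⟨a, ha⟩ := hz
        rw [mem_sec] at ha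
        have h1 : sec A V z = sec A V a := (sec_congr ha.2).symm
        rw [h1, hm]
        exact Nat.cast_le.2 (hymax a ha.1)
      · rw [Finset.not_nonempty_iff_eq_empty] at hz
        rw [hz]
        simp [hm]
    have hm0 : 0 < m := by
      have : 0 < (sec A V y).card := Finset.card_pos.2 ⟨y, by rw [mem_sec]; exact ⟨hyA, by simp⟩⟩
      rw [hm]
      exact_mod_cast this
    set π : M → M ⧸ V := fun c => (Submodule.Quotient.mk c : M ⧸ V) with hπ
    have hPm : P ≤ A.card * m := by
      have h1 : P ≤ ∑ x, (rd A x : ℝ) * (if x ∈ V then 1 else 0) := by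
        simp only [mul_ite, mul_one, mul_zero]
        rw [← Finset.sum_filter, hP]
        refine Finset.sum_le_sum_of_subset_of_nonneg ?_ (fun _ _ _ => Nat.cast_nonneg _)
        intro x hx
        exact Finset.mem_filter.2 ⟨Finset.mem_univ _, Submodule.subset_span hx⟩
      refine h1.trans ?_
      rw [← sum_pairs A (fun x => if x ∈ V then (1 : ℝ) else 0), ← nsmul_eq_mul,
        ← Finset.sum_const]
      refine Finset.sum_le_sum fun b _ => ?_
      rw [← Finset.sum_filter, Finset.sum_const, nsmul_eq_mul, mul_one]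
      exact hmall b
    have hmge : (A.card : ℝ) ≤ 2 * K * m := by
      have h1 : (A.card : ℝ) ^ 2 ≤ 2 * K * (A.card * m) :=
        hPge.trans (mul_le_mul_of_nonneg_left hPm (by positivity))
      have h2 : (A.card : ℝ) * A.card ≤ A.card * (2 * K * m) := by
        refine le_trans (le_of_eq (sq _).symm) (h1.trans (le_of_eq ?_))
        ring
      exact le_of_mul_le_mul_left h2 hc
    -- count cosets
    have hcnt : (A.image π).card * (sec A V y).card ≤ (A + A).card := by
      have h1 : (A.image π).card * (sec A V y).card ≤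
          ∑ q ∈ A.image π, ((A.filter fun c => π c = q) + sec A V y).card := by
        rw [← smul_eq_mul, ← Finset.sum_const]
        refine Finset.sum_le_sum fun q hq => ?_
        obtain ⟨x, hx, rfl⟩ := Finset.mem_image.1 hq
        exact Finset.card_le_card_add_left ⟨x, Finset.mem_filter.2 ⟨hx, rfl⟩⟩
      refine h1.trans ?_
      rw [← Finset.card_biUnion]
      · refine Finset.card_le_card (Finset.biUnion_subset.2 fun q _ => ?_)
        exact Finset.add_subset_add (Finset.filter_subset _ _) (Finset.filter_subset _ _)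
      · intro a _ b _ hab
        change Disjoint ((A.filter fun c => π c = a) + sec A V y)
          ((A.filter fun c => π c = b) + sec A V y)
        rw [Finset.disjoint_left]
        intro z hz1 hz2
        obtain ⟨c, hc1, e, he, rfl⟩ := Finset.mem_add.1 hz1
        obtain ⟨c', hc2, e', he', heq⟩ := Finset.mem_add.1 hz2
        apply hab
        rw [← (Finset.mem_filter.1 hc1).2, ← (Finset.mem_filter.1 hc2).2, hπ]
        simp only [Submodule.Quotient.eq]
        rw [mem_sec] at he he'
        have h1 : c - c' = (e' - y) - (e - y) := by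
          have : c = c' + e' - e := by rw [heq]; abel
          rw [this]; abel
        rw [h1]
        exact V.sub_mem he'.2 he.2
    have hcnt' : ((A.image π).card : ℝ) * m ≤ K * A.card := by
      have : ((A.image π).card : ℝ) * m ≤ (A + A).card := by
        rw [hm]
        exact_mod_cast hcnt
      exact this.trans hA2
    have h3 : ((A.image π).card : ℝ) * m ≤ (2 * K ^ 2) * m := by
      refine hcnt'.trans ?_
      have := mul_le_mul_of_nonneg_left hmge hK0.le
      refine this.trans (le_of_eq ?_)
      ring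
    exact le_of_mul_le_mul_right h3 hm0

end Pool.Agent.TH136.DM
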