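import Pool.Agent.TH136.DM.Cone
import Mathlib.Combinatorics.Additive.PluenneckeRuzsa

/-! Sets with small sums with all their unit dilates: popular directions form a unit-invariant set
of small doubling. -/

set_option autoImplicit false
open Finset
open scoped Pointwise Classical

namespace Pool.Agent.TH136.DM

/-- The Pluennecke-Ruzsa inequality over the reals. -/
theorem pl {G : Type*} [AddCommGroup G] [DecidableEq G] (A B : Finset G) (hA : A.Nonempty) (K : ℝ)
    (hK : ((A + B).card : ℝ) ≤ K * A.card) (m n : ℕ) :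
    ((m • B - n • B).card : ℝ) ≤ K ^ (m + n) * A.card := by
  have h := Finset.pluennecke_ruzsa_inequality_nsmul_sub_nsmul_add hA B m n
  have h' : ((m • B - n • B).card : ℝ) ≤ (((A + B).card : ℝ) / A.card) ^ (m + n) * A.card := by
    have := (NNRat.cast_le (K := ℝ)).2 h
    push_cast at this
    exact this
  have hc : (0 : ℝ) < A.card := by exact_mod_cast hA.card_pos
  refine h'.trans ?_
  gcongr
  rw [div_le_iff₀ hc]
  exact hK

variable {R M : Type*} [Ring R] [AddCommGroup M] [Module R M]

/-- number of representations as a difference -/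
noncomputable def rd (A : Finset M) (x : M) : ℕ := (A.filter fun a => a - x ∈ A).card

theorem rd_le (A : Finset M) (x : M) : rd A x ≤ A.card := Finset.card_filter_le _ _

theorem rd_pos {A : Finset M} {x : M} (h : rd A x ≠ 0) : x ∈ A - A := by
  obtain ⟨a, ha⟩ := Finset.card_pos.1 (Nat.pos_of_ne_zero h)
  rw [Finset.mem_filter] at ha
  exact Finset.mem_sub.2 ⟨a, ha.1, a - x, ha.2, by abel⟩

theorem sum_pairs [Fintype M] (A : Finset M) (f : M → ℝ) :
    ∑ b ∈ A, ∑ d ∈ A, f (d - b) = ∑ x, (rd A x : ℝ) * f x := by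
  have h1 : ∀ x, (rd A x : ℝ) * f x = ∑ d ∈ A, if d - x ∈ A then f x else 0 := by
    intro x
    rw [rd, ← Finset.sum_filter, Finset.sum_const, nsmul_eq_mul]
  simp_rw [h1]
  rw [Finset.sum_comm, Finset.sum_comm (s := Finset.univ)]
  refine Finset.sum_congr rfl fun d _ => ?_
  rw [← Finset.sum_filter]
  refine Finset.sum_bij (fun b _ => d - b) ?_ ?_ ?_ ?_
  · intro b hb
    simpa using hb
  · intro a _ b _ hab
    exact sub_right_injective hab
  · intro x hx
    have := (Finset.mem_filter.1 hx).2
    exact ⟨d - x, this, by simp⟩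
  · intro b _
    rfl

/-- the energy lower bound for one dilate -/
theorem energy_lower [Fintype M] (A : Finset M) (hA : A.Nonempty) (K : ℝ) (hK0 : 0 < K) (u : Rˣ)
    (hu : ((A + A.image fun a => (u : R) • a).card : ℝ) ≤ K * A.card) :
    (A.card : ℝ) ^ 3 ≤ K * ∑ x, (rd A x : ℝ) * rd A ((u : R) • x) := by
  have hc : (0 : ℝ) < A.card := by exact_mod_cast hA.card_pos
  have hinj : Function.Injective (fun a : M => (u : R) • a) := by
    intro a b hab
    have hab' : (u : R) • a = (u : R) • b := hab
    have : (u⁻¹ : Rˣ) • (u • a) = (u⁻¹ : Rˣ) • (u • b) := by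
      rw [Units.smul_def u a, Units.smul_def u b, hab']
    simpa using this
  set uA := A.image fun a => (u : R) • a with huA
  have huc : uA.card = A.card := Finset.card_image_of_injective _ hinj
  have h1 := card_sq_le A uA
  rw [huc] at h1
  have hrep : ∀ x, rep A uA x = ∑ b ∈ A, if x - (u : R) • b ∈ A then 1 else 0 := by
    intro x
    rw [← Finset.card_filter, rep]
    symm
    refine Finset.card_bij (fun b _ => (x - (u : R) • b, (u : R) • b)) ?_ ?_ ?_
    · intro b hb
      rw [Finset.mem_filter] at hb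
      refine Finset.mem_filter.2 ⟨Finset.mem_product.2 ⟨hb.2, ?_⟩, by simp⟩
      exact Finset.mem_image_of_mem _ hb.1
    · intro a _ b _ hab
      exact hinj (Prod.ext_iff.1 hab).2
    · rintro ⟨a, c⟩ hac
      rw [Finset.mem_filter, Finset.mem_product] at hac
      obtain ⟨⟨ha, hc'⟩, hx⟩ := hac
      obtain ⟨b, hb, rfl⟩ := Finset.mem_image.1 hc'
      simp only at hx ha
      refine ⟨b, Finset.mem_filter.2 ⟨hb, ?_⟩, ?_⟩
      · rw [← hx]
        simpa using ha
      · rw [← hx]
        simp
  have h2 : ∑ x, (rep A uA x : ℝ) ^ 2 = ∑ x, (rd A x : ℝ) * rd A ((u : R) • x) := by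
    have e1 : ∀ x, (rep A uA x : ℝ) ^ 2 =
        ∑ b ∈ A, ∑ d ∈ A, if x - (u : R) • b ∈ A ∧ x - (u : R) • d ∈ A then (1 : ℝ) else 0 := by
      intro x
      rw [hrep x]
      push_cast
      rw [sq, Finset.sum_mul_sum]
      refine Finset.sum_congr rfl fun b _ => Finset.sum_congr rfl fun d _ => ?_
      by_cases h1 : x - (u : R) • b ∈ A <;> by_cases h2 : x - (u : R) • d ∈ A <;> simp [h1, h2]
    simp_rw [e1]
    rw [Finset.sum_comm]
    rw [← sum_pairs A (fun x => (rd A ((u : R) • x) : ℝ))]
    refine Finset.sum_congr rfl fun b _ => ?_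
    rw [Finset.sum_comm]
    refine Finset.sum_congr rfl fun d _ => ?_
    rw [← Finset.sum_filter, Finset.sum_const, nsmul_eq_mul, mul_one, rd]
    congr 1
    symm
    refine Finset.card_bij (fun a _ => a + (u : R) • b) ?_ ?_ ?_
    · intro a ha
      rw [Finset.mem_filter] at ha
      refine Finset.mem_filter.2 ⟨Finset.mem_univ _, by simpa using ha.1, ?_⟩
      have e : a + (u : R) • b - (u : R) • d = a - (u : R) • (d - b) := by
        rw [smul_sub]; abel
      rw [e]
      exact ha.2
    · intro a _ c _ hac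
      exact add_left_injective _ hac
    · intro x hx
      obtain ⟨-, hx1, hx2⟩ := Finset.mem_filter.1 hx
      refine ⟨x - (u : R) • b, Finset.mem_filter.2 ⟨hx1, ?_⟩, by simp⟩
      have e : x - (u : R) • b - (u : R) • (d - b) = x - (u : R) • d := by
        rw [smul_sub]; abel
      rw [e]
      exact hx2
  rw [h2] at h1
  set E : ℝ := ∑ x, (rd A x : ℝ) * rd A ((u : R) • x) with hE
  have hE0 : 0 ≤ E := Finset.sum_nonneg fun x _ => by positivity
  have h3 : ((A.card : ℝ) * A.card) ^ 2 ≤ K * A.card * E :=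
    h1.trans (mul_le_mul_of_nonneg_right hu hE0)
  have h4 : (A.card : ℝ) * (A.card : ℝ) ^ 3 ≤ A.card * (K * E) := by nlinarith
  exact le_of_mul_le_mul_left h4 hc

/-- difference sets of dilates -/
theorem dilate_diff (A : Finset M) (hA : A.Nonempty) (K : ℝ)
    (hK : ∀ u : Rˣ, ((A + A.image fun a => (u : R) • a).card : ℝ) ≤ K * A.card) (u v : Rˣ) :
    ((((A - A).image fun a => (u : R) • a) + ((A - A).image fun a => (v : R) • a)).card : ℝ) ≤
      16 * K ^ 4 * A.card := by
  set w : Rˣ := u⁻¹ * v with hw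
  set B : Finset M := A ∪ A.image (fun a => (w : R) • a) with hB
  have hAB : ((A + B).card : ℝ) ≤ (2 * K) * A.card := by
    have h1 : (A + B).card ≤ (A + A).card + (A + A.image fun a => (w : R) • a).card := by
      rw [hB, Finset.add_union]
      exact Finset.card_union_le _ _
    have h2 : ((A + A).card : ℝ) ≤ K * A.card := by
      have := hK 1
      simpa using this
    have h3 := hK w
    have h1' : ((A + B).card : ℝ) ≤ (A + A).card + (A + A.image fun a => (w : R) • a).card := by
      exact_mod_cast h1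
    linarith
  have h := pl A B hA (2 * K) hAB 2 2
  have hle : (((A - A).image fun a => (u : R) • a) + ((A - A).image fun a => (v : R) • a)).card ≤
      (2 • B - 2 • B).card := by
    refine Finset.card_le_card_of_injOn (fun x => ((u⁻¹ : Rˣ) : R) • x) ?_ ?_
    · intro x hx
      obtain ⟨y, hy, z, hz, rfl⟩ := Finset.mem_add.1 (Finset.mem_coe.1 hx)
      obtain ⟨y', hy', rfl⟩ := Finset.mem_image.1 hy
      obtain ⟨z', hz', rfl⟩ := Finset.mem_image.1 hz
      obtain ⟨a, ha, c, hc, rfl⟩ := Finset.mem_sub.1 hy'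
      obtain ⟨d, hd, e, he, rfl⟩ := Finset.mem_sub.1 hz'
      refine Finset.mem_coe.2 (Finset.mem_sub.2 ⟨a + (w : R) • d, ?_, c + (w : R) • e, ?_, ?_⟩)
      · rw [two_nsmul]
        exact Finset.add_mem_add (Finset.mem_union_left _ ha)
          (Finset.mem_union_right _ (Finset.mem_image_of_mem _ hd))
      · rw [two_nsmul]
        exact Finset.add_mem_add (Finset.mem_union_left _ hc)
          (Finset.mem_union_right _ (Finset.mem_image_of_mem _ he))
      · simp only [smul_add, smul_sub, smul_smul, hw, Units.inv_mul, one_smul, Units.val_mul]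
        abel
    · intro a _ b _ hab
      have hab' : ((u⁻¹ : Rˣ) : R) • a = ((u⁻¹ : Rˣ) : R) • b := hab
      have : (u : R) • (((u⁻¹ : Rˣ) : R) • a) = (u : R) • (((u⁻¹ : Rˣ) : R) • b) := by rw [hab']
      simpa [smul_smul] using this
  have hle' : ((((A - A).image fun a => (u : R) • a) +
      ((A - A).image fun a => (v : R) • a)).card : ℝ) ≤ (2 • B - 2 • B).card := by
    exact_mod_cast hle
  refine hle'.trans (h.trans (le_of_eq ?_))
  ring

end Pool.Agent.TH136.DM
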